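import Pool.Agent.H825R2.EW.Local

set_option autoImplicit false
set_option linter.unusedSectionVars false

/-!
Circuit covers for even weights whose edges are light compared with their strength.
-/

namespace Pool.Agent.H825R2.EW

open Finset
open Pool.Agent.H126R2.CDC (MGraph)
open Pool.Agent.Helper879.ECD (cn)
open Pool.Agent.H126R2.NC (cover_minus countP_sum)

variable {V E : Type} [Fintype V] [DecidableEq V] [Fintype E] [DecidableEq E]

/-- the edges of `G[W]` with one end in `X` and one end outside `X` -/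
def cut (G : MGraph V E) (W X : Finset V) : Finset E :=
  univ.filter (fun f => (∀ v ∈ G.ends f, v ∈ W) ∧ (∃ v ∈ G.ends f, v ∈ X) ∧ ∃ v ∈ G.ends f, v ∉ X)

lemma mem_cut (G : MGraph V E) (v : E × Bool → V)
    (hv : ∀ e, G.ends e = s(v (e, false), v (e, true))) (W X : Finset V) (f : E) :
    f ∈ cut G W X ↔ (v (f, false) ∈ W ∧ v (f, true) ∈ W) ∧
      ¬ (v (f, false) ∈ X ↔ v (f, true) ∈ X) := by
  unfold cut
  rw [Finset.mem_filter, hv f]
  simp only [Finset.mem_univ, true_and, Sym2.mem_iff, forall_eq_or_imp, forall_eq,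
    exists_eq_or_imp, exists_eq_left]
  tauto

/-- the condition on an edge -/
def Light (G : MGraph V E) (p : E → ℕ) (e : E) : Prop :=
  ∃ W : Finset V, (∀ v ∈ G.ends e, v ∈ W) ∧
    ((∀ X ⊆ W, X.Nonempty → X ≠ W → (∀ f ∈ cut G W X, p f ≤ p e) →
        4 * p e ≤ ∑ f ∈ cut G W X, p f) ∨
      (∀ X ⊆ W, X.Nonempty → X ≠ W → (∀ f ∈ cut G W X, p f ≤ p e) →
        2 ≤ ((cut G W X).filter (fun f => p f = p e)).card))

theorem cover_light (G : MGraph V E) (p : E → ℕ) (hev : ∀ e, Even (p e))
    (h : ∀ e, Light G p e) :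
    ∃ F : Multiset (Finset E), (∀ C ∈ F, G.IsCircuit C) ∧
      ∀ e, F.countP (fun C => e ∈ C) = p e := by
  classical
  obtain ⟨v, hv⟩ := G.exists_halves
  choose q hq using hev
  have hqp : ∀ e, p e = 2 * q e := fun e => by rw [hq e]; ring
  let a : E → V := fun e => v (e, false)
  let b : E → V := fun e => v (e, true)
  have hcut : ∀ (W X : Finset V), cut G W X =
      (ins a b W).filter (fun f => ¬ (a f ∈ X ↔ b f ∈ X)) := by
    intro W X
    ext f
    rw [mem_cut G v hv, Finset.mem_filter]
    unfold ins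
    rw [Finset.mem_filter]
    simp only [Finset.mem_univ, true_and, a, b]
  have hcutX : ∀ (W X : Finset V), cut G W (X ∩ W) = cut G W X := by
    intro W X
    ext f
    rw [mem_cut G v hv, mem_cut G v hv, Finset.mem_inter, Finset.mem_inter]
    tauto
  have hHL : HL a b q := by
    intro e _
    obtain ⟨W, hW, hW2⟩ := h e
    have haW : a e ∈ W := hW _ (by rw [hv e]; exact Sym2.mem_mk_left _ _)
    have hbW : b e ∈ W := hW _ (by rw [hv e]; exact Sym2.mem_mk_right _ _)
    refine ⟨W, haW, hbW, ?_⟩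
    have hX : ∀ X, Lt a b q (q e) W X → (X ∩ W ⊆ W ∧ (X ∩ W).Nonempty ∧ X ∩ W ≠ W ∧
        ∀ f ∈ cut G W (X ∩ W), p f ≤ p e) := by
      rintro X ⟨⟨u, hu, huX⟩, ⟨w, hw, hwX⟩, hle⟩
      refine ⟨Finset.inter_subset_right, ⟨u, Finset.mem_inter.2 ⟨huX, hu⟩⟩, ?_, ?_⟩
      · intro heq
        have : w ∈ X ∩ W := by rw [heq]; exact hw
        exact hwX (Finset.mem_inter.1 this).1
      · intro f hf
        rw [hcutX, hcut, Finset.mem_filter] at hf
        have := hle f hf.1 hf.2
        rw [hqp, hqp]; omega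
    rcases hW2 with h1 | h1
    · left
      intro X hLt
      obtain ⟨k1, k2, k3, k4⟩ := hX X hLt
      have h2 := h1 _ k1 k2 k3 k4
      rw [hcutX, hcut] at h2
      unfold cw
      have h3 : ∑ f ∈ (ins a b W).filter (fun f => ¬ (a f ∈ X ↔ b f ∈ X)), p f =
          2 * ∑ f ∈ (ins a b W).filter (fun f => ¬ (a f ∈ X ↔ b f ∈ X)), q f := by
        rw [Finset.mul_sum]
        exact Finset.sum_congr rfl (fun f _ => hqp f)
      rw [h3, hqp e] at h2
      omega
    · right
      intro X hLt
      obtain ⟨k1, k2, k3, k4⟩ := hX X hLt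
      refine le_trans (h1 _ k1 k2 k3 k4) (Finset.card_le_card ?_)
      intro f hf
      rw [Finset.mem_filter, hcutX, hcut, Finset.mem_filter] at hf
      rw [Finset.mem_filter]
      refine ⟨hf.1.1, hf.1.2, ?_⟩
      have := hf.2
      rw [hqp, hqp] at this
      omega
  -- number of slots
  let M : ℕ := univ.sup q
  have hM : ∀ e, q e ≤ M := fun e => Finset.le_sup (Finset.mem_univ e)
  obtain ⟨H, hH1, hH2, hH3⟩ := strong q _ a b rfl hHL M (fun e _ => hM e)
  let H' : Fin M → Finset E := fun j =>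
    H j ∪ univ.filter (fun e => a e = b e ∧ j.val < q e)
  have hH' : ∀ j e, e ∈ H' j ↔ e ∈ H j ∨ (a e = b e ∧ j.val < q e) := by
    intro j e
    simp only [H', Finset.mem_union, Finset.mem_filter, Finset.mem_univ, true_and]
  have hcount : ∀ e, (univ.filter (fun j => e ∈ H' j)).card = q e := by
    intro e
    by_cases he : a e = b e
    · have h1 : univ.filter (fun j => e ∈ H' j) = univ.filter (fun j : Fin M => j.val < q e) := by
        ext j
        rw [Finset.mem_filter, Finset.mem_filter, hH']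
        constructor
        · rintro ⟨_, h2 | h2⟩
          · exact absurd he (hH1 j e h2)
          · exact ⟨Finset.mem_univ _, h2.2⟩
        · rintro ⟨_, h2⟩; exact ⟨Finset.mem_univ _, Or.inr ⟨he, h2⟩⟩
      rw [h1, Fin.card_filter_val_lt]
      exact min_eq_right (hM e)
    · have h1 : univ.filter (fun j => e ∈ H' j) = univ.filter (fun j => e ∈ H j) := by
        ext j
        rw [Finset.mem_filter, Finset.mem_filter, hH']
        constructor
        · rintro ⟨_, h2 | h2⟩
          · exact ⟨Finset.mem_univ _, h2⟩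
          · exact absurd h2.1 he
        · rintro ⟨_, h2⟩; exact ⟨Finset.mem_univ _, Or.inl h2⟩
      rw [h1]
      exact hH2 e he
  have hcov : ∀ j : Fin M, ∃ F : Multiset (Finset E), (∀ C ∈ F, G.IsCircuit C) ∧
      ∀ e, F.countP (fun C => e ∈ C) = if e ∈ univ \ H' j then 0 else 2 := by
    intro j
    apply cover_minus G v hv
    intro X
    have h1 : (univ \ (univ \ H' j) : Finset E) = H' j := by
      rw [Finset.sdiff_sdiff_eq_self (Finset.subset_univ _)]
    rw [h1]
    have h2 : cn (fun e => v (e, false)) (fun e => v (e, true)) (H' j) X =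
        ((H j).filter (fun e => ¬ (a e ∈ X ↔ b e ∈ X))).card := by
      unfold cn
      congr 1
      ext e
      rw [Finset.mem_filter, Finset.mem_filter, hH']
      constructor
      · rintro ⟨h3 | h3, h4⟩
        · exact ⟨h3, h4⟩
        · exact absurd h3.1 (crossing_ne a b X e h4)
      · rintro ⟨h3, h4⟩; exact ⟨Or.inl h3, h4⟩
    rw [h2]
    exact hH3 j X
  choose F hF1 hF2 using hcov
  refine ⟨∑ j : Fin M, F j, ?_, ?_⟩
  · intro C hC
    rw [Multiset.mem_sum] at hC
    obtain ⟨j, _, hj⟩ := hC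
    exact hF1 j C hj
  · intro e
    rw [countP_sum]
    have h1 : ∀ j ∈ (univ : Finset (Fin M)), (F j).countP (fun C => e ∈ C) =
        if e ∈ H' j then 2 else 0 := by
      intro j _
      rw [hF2 j e]
      by_cases he : e ∈ H' j
      · rw [if_neg (by simp [he]), if_pos he]
      · rw [if_pos (by simp [he]), if_neg he]
    rw [Finset.sum_congr rfl h1, ← Finset.sum_filter, Finset.sum_const, hcount e, hqp e]
    rw [smul_eq_mul, mul_comm]

end Pool.Agent.H825R2.EW
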