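import Pool.Agent.H825R2.EW.PLocal
import Pool.Agent.H825R2.EW.Final

set_option autoImplicit false
set_option linter.unusedSectionVars false

/-!
Circuit covers for even weights from pairs of disjoint edge sets with the same components
(partition conditions).
-/

namespace Pool.Agent.H825R2.EW

open Finset
open Pool.Agent.H126R2.CDC (MGraph isFl_iff)
open Pool.Agent.Helper879.ECD (cn F2 IsFlow f2_add_self f2_cases inc fnl fnl_inc sp mem_sp
  exists_coeff)
open Pool.Agent.H126R2.NC (countP_sum)

section Span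

variable {W E : Type} [Fintype W] [DecidableEq W] [Fintype E] [DecidableEq E]

/-- an edge inside a component of `T` is a combination of the edges of `T` -/
lemma mem_span_of_all (a b : E → W) (T : Finset E) (e : E) (h : All a b T e) :
    inc a b e ∈ sp F2 (inc a b) T := by
  classical
  by_contra hcon
  obtain ⟨f, hf1, hf2⟩ := Submodule.exists_le_ker_of_notMem hcon
  let X : Finset W := univ.filter (fun w => f (Pi.single w 1) = 1)
  have hX : ∀ w, f (Pi.single w 1) = if w ∈ X then 1 else 0 := by
    intro w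
    by_cases hw : w ∈ X
    · rw [if_pos hw]
      exact (Finset.mem_filter.1 hw).2
    · rw [if_neg hw]
      rcases f2_cases (f (Pi.single w 1)) with h1 | h1
      · exact h1
      · have h2 : w ∈ X := by
          simp only [X, Finset.mem_filter, Finset.mem_univ, true_and]
          exact h1
        exact absurd h2 hw
  have hinc : ∀ g, f (inc a b g) = (if a g ∈ X then 1 else 0) + if b g ∈ X then 1 else 0 := by
    intro g
    unfold inc
    rw [map_add, hX, hX]
  obtain ⟨t, ht, ht'⟩ := h X (by
    intro hiff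
    apply hf1
    rw [hinc]
    by_cases h1 : a e ∈ X
    · rw [if_pos h1, if_pos (hiff.1 h1)]; exact f2_add_self _
    · rw [if_neg h1, if_neg (fun h => h1 (hiff.2 h)), add_zero])
  have h1 : f (inc a b t) = 0 := LinearMap.mem_ker.1 (hf2 (mem_sp ht))
  rw [hinc] at h1
  by_cases h2 : a t ∈ X
  · by_cases h3 : b t ∈ X
    · exact ht' ⟨fun _ => h3, fun _ => h2⟩
    · rw [if_pos h2, if_neg h3, add_zero] at h1
      exact one_ne_zero h1
  · by_cases h3 : b t ∈ X
    · rw [if_neg h2, if_pos h3, zero_add] at h1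
      exact one_ne_zero h1
    · exact ht' ⟨fun h => absurd h h2, fun h => absurd h h3⟩

/-- a flow with prescribed values outside `T` -/
lemma exists_join (a b : E → W) (T : Finset E) (h : E → F2)
    (hT : ∀ e, h e ≠ 0 → All a b T e) :
    ∃ ψ : E → F2, (∀ e, e ∉ T → ψ e = h e) ∧ IsFlow a b ψ := by
  classical
  have hτ : ∑ e, h e • inc a b e ∈ sp F2 (inc a b) T := by
    apply Submodule.sum_mem
    intro e _
    by_cases h0 : h e = 0
    · rw [h0, zero_smul]; exact Submodule.zero_mem _
    · exact Submodule.smul_mem _ _ (mem_span_of_all a b T e (hT e h0))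
  obtain ⟨c, hc⟩ := exists_coeff hτ
  refine ⟨fun e => h e + if e ∈ T then c e else 0, ?_, ?_⟩
  · intro e he; simp [he]
  · intro d
    have h1 : ∑ e, (h e + if e ∈ T then c e else 0) • inc a b e = 0 := by
      have h2 : ∀ e ∈ (univ : Finset E), (h e + if e ∈ T then c e else 0) • inc a b e =
          h e • inc a b e + if e ∈ T then c e • inc a b e else 0 := by
        intro e _
        rw [add_smul]
        split_ifs <;> simp
      rw [Finset.sum_congr rfl h2, Finset.sum_add_distrib, ← Finset.sum_filter,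
        Finset.filter_mem_eq_inter, Finset.univ_inter, hc]
      ext w; exact f2_add_self _
    have h2 := congrArg (fnl d) h1
    rw [map_sum, map_zero] at h2
    refine Eq.trans ?_ h2
    apply Finset.sum_congr rfl
    intro e _
    rw [map_smul, fnl_inc, smul_eq_mul]

lemma IsFlow.add {a b : E → W} {φ ψ : E → F2} (h1 : IsFlow a b φ) (h2 : IsFlow a b ψ) :
    IsFlow a b (fun e => φ e + ψ e) := by
  intro c
  have h3 : ∀ e ∈ (univ : Finset E), (φ e + ψ e) * (c (a e) + c (b e)) =
      φ e * (c (a e) + c (b e)) + ψ e * (c (a e) + c (b e)) := fun e _ => add_mul _ _ _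
  rw [Finset.sum_congr rfl h3, Finset.sum_add_distrib, h1 c, h2 c, add_zero]

end Span

variable {V E : Type} [Fintype V] [DecidableEq V] [Fintype E] [DecidableEq E]

/-- a flow over the field with two elements is a disjoint union of circuits -/
lemma circuits_of_flow (G : MGraph V E) (v : E × Bool → V)
    (hv : ∀ e, G.ends e = s(v (e, false), v (e, true))) (ψ : E → F2)
    (hψ : IsFlow (fun e => v (e, false)) (fun e => v (e, true)) ψ) :
    ∃ F : Multiset (Finset E), (∀ C ∈ F, G.IsCircuit C) ∧
      ∀ e, F.countP (fun C => e ∈ C) = if ψ e = 0 then 0 else 1 := by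
  classical
  obtain ⟨F, hF1, hF2⟩ := G.decompose _ (univ.filter (fun e => ψ e ≠ 0)) rfl (by
    rw [G.isEven_iff v hv, isFl_iff]
    have h1 : (fun e => if e ∈ univ.filter (fun e => ψ e ≠ 0) then (1 : F2) else 0) = ψ := by
      ext e
      rcases f2_cases (ψ e) with h | h
      · simp [h]
      · simp [h]
    rw [h1]
    exact hψ)
  refine ⟨F, hF1, fun e => ?_⟩
  rw [hF2 e]
  by_cases h : ψ e = 0
  · simp [h]
  · simp [h]

/-- the four even edge sets of a slot -/
lemma cover_slot (G : MGraph V E) (v : E × Bool → V)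
    (hv : ∀ e, G.ends e = s(v (e, false), v (e, true))) (ψ φ φ' : E → F2)
    (hψ : IsFlow (fun e => v (e, false)) (fun e => v (e, true)) ψ)
    (hφ : IsFlow (fun e => v (e, false)) (fun e => v (e, true)) φ)
    (hφ' : IsFlow (fun e => v (e, false)) (fun e => v (e, true)) φ') :
    ∃ F : Multiset (Finset E), (∀ C ∈ F, G.IsCircuit C) ∧
      ∀ e, F.countP (fun C => e ∈ C) =
        if ψ e = 0 then 2 * ((if φ e = 0 then 0 else 1) + (if φ' e = 0 then 0 else 1)) else 2 := by
  obtain ⟨F1, h1, h1'⟩ := circuits_of_flow G v hv φ hφ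
  obtain ⟨F2, h2, h2'⟩ := circuits_of_flow G v hv _ (IsFlow.add hφ hψ)
  obtain ⟨F3, h3, h3'⟩ := circuits_of_flow G v hv φ' hφ'
  obtain ⟨F4, h4, h4'⟩ := circuits_of_flow G v hv _ (IsFlow.add hφ' hψ)
  refine ⟨F1 + F2 + (F3 + F4), ?_, ?_⟩
  · intro C hC
    rw [Multiset.mem_add, Multiset.mem_add, Multiset.mem_add] at hC
    rcases hC with (hC | hC) | (hC | hC)
    · exact h1 C hC
    · exact h2 C hC
    · exact h3 C hC
    · exact h4 C hC
  · intro e
    rw [Multiset.countP_add, Multiset.countP_add, Multiset.countP_add, h1', h2', h3', h4']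
    have hc : ∀ x y z : ZMod 2, (if x = 0 then 0 else 1) + (if x + z = 0 then 0 else 1) +
      ((if y = 0 then 0 else 1) + (if y + z = 0 then 0 else 1)) =
      if z = 0 then 2 * ((if x = 0 then 0 else 1) + (if y = 0 then 0 else 1)) else 2 := by decide
    exact hc _ _ _

/-- the edges of `G[W]` whose ends have different colours -/
def cross (G : MGraph V E) (W : Finset V) (c : V → ℕ) : Finset E :=
  univ.filter (fun f => (∀ v ∈ G.ends f, v ∈ W) ∧ ∃ u ∈ G.ends f, ∃ v ∈ G.ends f, c u ≠ c v)

lemma mem_cross (G : MGraph V E) (v : E × Bool → V)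
    (hv : ∀ e, G.ends e = s(v (e, false), v (e, true))) (W : Finset V) (c : V → ℕ) (f : E) :
    f ∈ cross G W c ↔ (v (f, false) ∈ W ∧ v (f, true) ∈ W) ∧
      c (v (f, false)) ≠ c (v (f, true)) := by
  unfold cross
  rw [Finset.mem_filter, hv f]
  simp only [Finset.mem_univ, true_and, Sym2.mem_iff, forall_eq_or_imp, forall_eq,
    exists_eq_or_imp, exists_eq_left, ne_eq, not_true_eq_false, false_or, or_false]
  constructor
  · rintro ⟨h1, h2 | h2⟩
    · exact ⟨h1, h2⟩
    · exact ⟨h1, fun h => h2 h.symm⟩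
  · rintro ⟨h1, h2⟩
    exact ⟨h1, Or.inl h2⟩

theorem cover_parts (G : MGraph V E) (p : E → ℕ) (hev : ∀ e, Even (p e)) (N : ℕ → ℕ)
    (hmono : Monotone N) (hpN : ∀ e, p e ≤ 4 * N (p e))
    (h : ∀ e, ∃ W : Finset V, (∀ v ∈ G.ends e, v ∈ W) ∧
      ∀ c : V → ℕ, (∀ f ∈ cross G W c, p f ≤ p e) →
        4 * N (p e) * ((W.image c).card - 1) ≤
          ∑ f ∈ cross G W c, min (p f) (4 * N (p e) - p f)) :
    ∃ F : Multiset (Finset E), (∀ C ∈ F, G.IsCircuit C) ∧
      ∀ e, F.countP (fun C => e ∈ C) = p e := by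
  classical
  obtain ⟨v, hv⟩ := G.exists_halves
  choose q hq using hev
  have hqp : ∀ e, p e = 2 * q e := fun e => by rw [hq e]; ring
  let a : E → V := fun e => v (e, false)
  let b : E → V := fun e => v (e, true)
  let N' : ℕ → ℕ := fun m => N (2 * m)
  have hN'p : ∀ e, N' (q e) = N (p e) := fun e => by rw [hqp e]
  have hmono' : Monotone N' := fun m n hmn => hmono (Nat.mul_le_mul_left 2 hmn)
  have hqN : ∀ e, q e ≤ 2 * N' (q e) := by
    intro e
    have := hpN e
    rw [hN'p]
    have := hqp e
    omega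
  have hcross : ∀ (W : Finset V) (c : V → ℕ), cross G W c =
      (ins a b W).filter (fun f => c (a f) ≠ c (b f)) := by
    intro W c
    ext f
    rw [mem_cross G v hv, Finset.mem_filter]
    unfold ins
    rw [Finset.mem_filter]
    simp only [Finset.mem_univ, true_and, a, b]
  have hHZ : HP a b q N' := by
    intro e _
    obtain ⟨W, hW, hW2⟩ := h e
    have haW : a e ∈ W := hW _ (by rw [hv e]; exact Sym2.mem_mk_left _ _)
    have hbW : b e ∈ W := hW _ (by rw [hv e]; exact Sym2.mem_mk_right _ _)
    refine ⟨W, haW, hbW, ?_⟩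
    intro c hle
    have h2 := hW2 c (by
      intro f hf
      rw [hcross, Finset.mem_filter] at hf
      have := hle f hf.1 hf.2
      rw [hqp, hqp]; omega)
    rw [hcross] at h2
    rw [hN'p]
    have h3 : ∑ f ∈ (ins a b W).filter (fun f => c (a f) ≠ c (b f)),
        min (p f) (4 * N (p e) - p f) =
        2 * ∑ f ∈ (ins a b W).filter (fun f => c (a f) ≠ c (b f)),
          min (q f) (2 * N (p e) - q f) := by
      rw [Finset.mul_sum]
      apply Finset.sum_congr rfl
      intro f _
      have := hqp f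
      omega
    rw [h3] at h2
    have h4 : 4 * N (p e) * ((W.image c).card - 1) =
        2 * (2 * N (p e) * ((W.image c).card - 1)) := by ring
    omega
  -- number of slots
  let K : ℕ := univ.sup (fun e => max (q e) (N' (q e)))
  have hK : ∀ e, max (q e) (N' (q e)) ≤ K := fun e =>
    Finset.le_sup (f := fun e => max (q e) (N' (q e))) (Finset.mem_univ e)
  have hK1 : ∀ e, q e ≤ K := fun e => le_trans (le_max_left _ _) (hK e)
  have hK2 : ∀ e, N' (q e) ≤ K := fun e => le_trans (le_max_right _ _) (hK e)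
  obtain ⟨T0, T1, hT1, hT2, hT3, hT4⟩ := strongP q N' hmono' hqN _ a b rfl hHZ K
    (fun e _ => hK2 e)
  have hall01 : ∀ j e, All a b (T0 j) e → All a b (T1 j) e := by
    intro j e he X hX
    exact (hT3 j X).1 (he X hX)
  have hallmem : ∀ (T : Finset E) e, e ∈ T → All a b T e := fun T e he X hX => ⟨e, he, hX⟩
  -- the even sets containing `T1 j`
  have hS : ∀ j : Fin K, ∃ ψ : E → F2, (∀ e, ψ e ≠ 0 → e ∈ T0 j ∨ e ∈ T1 j) ∧
      (∀ e ∈ T1 j, ψ e = 1) ∧ IsFlow a b ψ := by
    intro j
    obtain ⟨ψ, h1, h2⟩ := exists_join a b (T0 j) (fun e => if e ∈ T1 j then 1 else 0) (by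
      intro e he X hX
      have he1 : e ∈ T1 j := by
        by_contra hcon
        exact he (if_neg hcon)
      exact (hT3 j X).2 ⟨e, he1, hX⟩)
    refine ⟨ψ, ?_, ?_, h2⟩
    · intro e he
      by_cases h3 : e ∈ T0 j
      · exact Or.inl h3
      · right
        rw [h1 e h3] at he
        by_contra hcon
        exact he (if_neg hcon)
    · intro e he
      rw [h1 e (fun h3 => Finset.disjoint_left.1 (hT2 j) h3 he), if_pos he]
  choose ψ hψ1 hψ2 hψ3 using hS
  -- the free slots of an edge
  let free : E → Finset (Fin K) := fun e => univ.filter (fun j => All a b (T0 j) e ∧ ψ j e = 0)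
  let s : E → ℕ := fun e => (univ.filter (fun j => ψ j e ≠ 0)).card
  have hψall : ∀ j e, ψ j e ≠ 0 → All a b (T0 j) e := by
    intro j e he
    rcases hψ1 j e he with h1 | h1
    · exact hallmem _ _ h1
    · intro X hX
      exact (hT3 j X).2 ⟨e, h1, hX⟩
  have hsum : ∀ e, (free e).card + s e = (univ.filter (fun j => All a b (T0 j) e)).card := by
    intro e
    rw [← Finset.card_union_of_disjoint]
    · congr 1
      ext j
      simp only [free, Finset.mem_union, Finset.mem_filter, Finset.mem_univ, true_and]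
      constructor
      · rintro (h1 | h1)
        · exact h1.1
        · exact hψall j e h1
      · intro h1
        by_cases h2 : ψ j e = 0
        · exact Or.inl ⟨h1, h2⟩
        · exact Or.inr h2
    · rw [Finset.disjoint_left]
      intro j h1 h2
      simp only [free, Finset.mem_filter, Finset.mem_univ, true_and] at h1 h2
      exact h2 h1.2
  have hbound : ∀ e, s e ≤ q e ∧ q e - s e ≤ 2 * (free e).card := by
    intro e
    have h1 := hsum e
    by_cases he : a e = b e
    · have h2 : s e = 0 := by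
        show (univ.filter (fun j => ψ j e ≠ 0)).card = 0
        rw [Finset.card_eq_zero, Finset.filter_eq_empty_iff]
        intro j _ h3
        exact hT1 j e (hψ1 j e h3) he
      have h3 : (univ.filter (fun j => All a b (T0 j) e)).card = K := by
        rw [Finset.filter_true_of_mem, Finset.card_univ, Fintype.card_fin]
        intro j _ X hX
        exact absurd (by rw [he]) hX
      have h4 := hK1 e
      omega
    · obtain ⟨h2, h3⟩ := hT4 e he
      have h4 : s e ≤ (univ.filter (fun j => e ∈ T0 j ∨ e ∈ T1 j)).card := by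
        apply Finset.card_le_card
        intro j hj
        rw [Finset.mem_filter] at hj ⊢
        exact ⟨Finset.mem_univ _, hψ1 j e hj.2⟩
      omega
  have hΦ : ∀ e, ∃ Φ Φ' : Finset (Fin K), Φ ⊆ free e ∧ Φ' ⊆ free e ∧
      Φ.card + Φ'.card = q e - s e := by
    intro e
    obtain ⟨h1, h2⟩ := hbound e
    obtain ⟨Φ, h3, h4⟩ := Finset.exists_subset_card_eq (s := free e)
      (n := min (q e - s e) (free e).card) (min_le_right _ _)
    obtain ⟨Φ', h5, h6⟩ := Finset.exists_subset_card_eq (s := free e)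
      (n := (q e - s e) - min (q e - s e) (free e).card) (by omega)
    exact ⟨Φ, Φ', h3, h5, by omega⟩
  choose Φ Φ' hΦ1 hΦ2 hΦ3 using hΦ
  have hjoin : ∀ (Ψ : E → Finset (Fin K)), (∀ e, Ψ e ⊆ free e) → ∀ j : Fin K,
      ∃ φ : E → F2, (∀ e, ψ j e = 0 → φ e = if j ∈ Ψ e then 1 else 0) ∧ IsFlow a b φ := by
    intro Ψ hΨ j
    obtain ⟨φ, h1, h2⟩ := exists_join a b (T1 j) (fun e => if j ∈ Ψ e then 1 else 0) (by
      intro e he
      have h3 : j ∈ Ψ e := by
        by_contra hcon
        exact he (if_neg hcon)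
      have h4 := hΨ e h3
      exact hall01 j e (Finset.mem_filter.1 h4).2.1)
    refine ⟨φ, ?_, h2⟩
    intro e he
    apply h1
    intro h3
    rw [hψ2 j e h3] at he
    exact one_ne_zero he
  choose φ hφ1 hφ2 using hjoin Φ hΦ1
  choose φ' hφ1' hφ2' using hjoin Φ' hΦ2
  choose F hF1 hF2 using fun j => cover_slot G v hv (ψ j) (φ j) (φ' j) (hψ3 j) (hφ2 j) (hφ2' j)
  refine ⟨∑ j : Fin K, F j, ?_, ?_⟩
  · intro C hC
    rw [Multiset.mem_sum] at hC
    obtain ⟨j, _, hj⟩ := hC
    exact hF1 j C hj
  · intro e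
    rw [countP_sum]
    have h1 : ∀ j ∈ (univ : Finset (Fin K)), (F j).countP (fun C => e ∈ C) =
        (if ψ j e ≠ 0 then 2 else 0) + ((if j ∈ Φ e then 2 else 0) +
          (if j ∈ Φ' e then 2 else 0)) := by
      intro j _
      rw [hF2 j e]
      by_cases h2 : ψ j e = 0
      · rw [if_pos h2, if_neg (not_not.2 h2), hφ1 j e h2, hφ1' j e h2]
        by_cases h3 : j ∈ Φ e <;> by_cases h4 : j ∈ Φ' e <;> simp [h3, h4]
      · have h3 : j ∉ Φ e := fun h => h2 (Finset.mem_filter.1 (hΦ1 e h)).2.2
        have h4 : j ∉ Φ' e := fun h => h2 (Finset.mem_filter.1 (hΦ2 e h)).2.2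
        rw [if_neg h2, if_pos h2, if_neg h3, if_neg h4]
    rw [Finset.sum_congr rfl h1, Finset.sum_add_distrib, Finset.sum_add_distrib,
      ← Finset.sum_filter, ← Finset.sum_filter, ← Finset.sum_filter, Finset.sum_const,
      Finset.sum_const, Finset.sum_const, Finset.filter_mem_eq_inter,
      Finset.filter_mem_eq_inter, Finset.univ_inter, Finset.univ_inter]
    simp only [smul_eq_mul]
    have h2 := hΦ3 e
    have h3 := hbound e
    have h4 : (univ.filter (fun j => ψ j e ≠ 0)).card = s e := rfl
    rw [h4, hqp e]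
    omega

end Pool.Agent.H825R2.EW
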