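import Pool.Agent.H825R2.EW.PFinal

set_option autoImplicit false
set_option linter.unusedSectionVars false

/-!
Circuit covers for even weights of bounded ratio on highly edge-connected graphs.
-/

namespace Pool.Agent.H825R2.EW

open Finset
open Pool.Agent.H126R2.CDC (MGraph)

variable {V E : Type} [Fintype V] [DecidableEq V] [Fintype E] [DecidableEq E]

/-- the sum of the weights of the cuts of the classes of a partition is at most twice the weight
of the edges between the classes -/
lemma sum_cut_le (G : MGraph V E) (c : V → ℕ) :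
    ∑ k ∈ (univ : Finset V).image c,
      (cut G univ (univ.filter (fun v => c v = k))).card ≤ 2 * (cross G univ c).card := by
  classical
  obtain ⟨v, hv⟩ := G.exists_halves
  have h1 : ∀ k ∈ (univ : Finset V).image c,
      (cut G univ (univ.filter (fun v => c v = k))).card =
      ∑ f ∈ cross G univ c, if f ∈ cut G univ (univ.filter (fun v => c v = k)) then 1 else 0 := by
    intro k _
    rw [← Finset.sum_filter, Finset.sum_const, smul_eq_mul, mul_one, Finset.filter_mem_eq_inter]
    congr 1
    symm
    rw [Finset.inter_eq_right]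
    intro f hf
    rw [mem_cut G v hv] at hf
    rw [mem_cross G v hv]
    refine ⟨hf.1, fun h => hf.2 ?_⟩
    simp only [Finset.mem_filter, Finset.mem_univ, true_and]
    rw [h]
  rw [Finset.sum_congr rfl h1, Finset.sum_comm, mul_comm]
  apply Finset.sum_le_card_nsmul
  intro f _
  rw [← Finset.sum_filter, Finset.sum_const, smul_eq_mul, mul_one]
  refine le_trans (Finset.card_le_card (t := {c (v (f, false)), c (v (f, true))}) ?_)
    Finset.card_le_two
  intro k hk
  rw [Finset.mem_filter, mem_cut G v hv] at hk
  have h2 := hk.2.2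
  simp only [Finset.mem_filter, Finset.mem_univ, true_and] at h2
  rw [Finset.mem_insert, Finset.mem_singleton]
  by_contra hcon
  push Not at hcon
  exact h2 ⟨fun h => absurd h.symm hcon.1, fun h => absurd h.symm hcon.2⟩

theorem cover_ratio (G : MGraph V E) (p : E → ℕ) (hev : ∀ e, Even (p e)) (l h : ℕ)
    (hl : ∀ e, l ≤ p e) (hh : ∀ e, p e ≤ h) (h4 : 4 ∣ l + h)
    (hcon : ∀ X : Finset V, X.Nonempty → X ≠ univ → 2 * (l + h) ≤ l * (cut G univ X).card) :
    ∃ F : Multiset (Finset E), (∀ C ∈ F, G.IsCircuit C) ∧
      ∀ e, F.countP (fun C => e ∈ C) = p e := by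
  classical
  obtain ⟨n, hn⟩ := h4
  apply cover_parts G p hev (fun _ => n) (fun _ _ _ => le_rfl) (fun e => by
    have := hh e
    show p e ≤ 4 * n
    omega)
  intro e
  refine ⟨univ, fun v _ => Finset.mem_univ _, ?_⟩
  intro c _
  show 4 * n * (((univ : Finset V).image c).card - 1) ≤
    ∑ f ∈ cross G univ c, min (p f) (4 * n - p f)
  rw [← hn]
  have h1 : l * (cross G univ c).card ≤ ∑ f ∈ cross G univ c, min (p f) (l + h - p f) := by
    have := Finset.card_nsmul_le_sum (cross G univ c) (fun f => min (p f) (l + h - p f)) l (by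
      intro f _
      have := hl f
      have := hh f
      show l ≤ min (p f) (l + h - p f)
      omega)
    rw [smul_eq_mul, mul_comm] at this
    exact this
  refine le_trans ?_ h1
  by_cases hk : ((univ : Finset V).image c).card ≤ 1
  · have : ((univ : Finset V).image c).card - 1 = 0 := by omega
    rw [this, mul_zero]
    exact Nat.zero_le _
  have h2 : ∀ k ∈ (univ : Finset V).image c,
      2 * (l + h) ≤ l * (cut G univ (univ.filter (fun v => c v = k))).card := by
    intro k hk'
    obtain ⟨u, _, hu⟩ := Finset.mem_image.1 hk'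
    apply hcon
    · exact ⟨u, Finset.mem_filter.2 ⟨Finset.mem_univ _, hu⟩⟩
    · intro heq
      apply hk
      rw [Finset.card_le_one]
      intro x hx y hy
      obtain ⟨x', _, rfl⟩ := Finset.mem_image.1 hx
      obtain ⟨y', _, rfl⟩ := Finset.mem_image.1 hy
      have hx' : x' ∈ univ.filter (fun v => c v = k) := by rw [heq]; exact Finset.mem_univ _
      have hy' : y' ∈ univ.filter (fun v => c v = k) := by rw [heq]; exact Finset.mem_univ _
      rw [(Finset.mem_filter.1 hx').2, (Finset.mem_filter.1 hy').2]
  have h3 := Finset.sum_le_sum h2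
  rw [Finset.sum_const, smul_eq_mul, ← Finset.mul_sum] at h3
  have h5 := Nat.mul_le_mul_left l (sum_cut_le G c)
  have h6 : ((univ : Finset V).image c).card * (2 * (l + h)) =
      2 * ((l + h) * ((univ : Finset V).image c).card) := by ring
  have h7 : l * (2 * (cross G univ c).card) = 2 * (l * (cross G univ c).card) := by ring
  have h8 : (l + h) * (((univ : Finset V).image c).card - 1) ≤
      (l + h) * ((univ : Finset V).image c).card := Nat.mul_le_mul_left _ (Nat.sub_le _ _)
  omega

end Pool.Agent.H825R2.EW
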