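import Pool.Agent.H825R2.EW.Pairs
import Pool.Agent.H126R2.NC.L4

set_option autoImplicit false
set_option linter.unusedSectionVars false

/-!
Edge weights that are at most a quarter of the strength of the edge: decomposition into
subgraphs without a cut edge, and circuit covers.
-/

namespace Pool.Agent.H825R2.EW

open Finset
open Pool.Agent.H126R2.CDC (MGraph)
open Pool.Agent.Helper879.ECD (cn)

variable {W E : Type} [Fintype W] [DecidableEq W] [Fintype E] [DecidableEq E]

/-- the edges with both ends in `B` -/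
def ins (a b : E → W) (B : Finset W) : Finset E := univ.filter (fun e => a e ∈ B ∧ b e ∈ B)

/-- `X` separates `B`, and no edge inside `B` crossing `X` is heavier than `m` -/
def Lt (a b : E → W) (q : E → ℕ) (m : ℕ) (B X : Finset W) : Prop :=
  (∃ u ∈ B, u ∈ X) ∧ (∃ v ∈ B, v ∉ X) ∧
    ∀ f ∈ ins a b B, ¬ (a f ∈ X ↔ b f ∈ X) → q f ≤ m

/-- `B` is good for the weight `m`: all cuts inside `B` without edges heavier than `m` weigh at
least `4 m`, or all of them have at least two edges of weight (at least) `m` -/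
def GoodB (a b : E → W) (q : E → ℕ) (m : ℕ) (B : Finset W) : Prop :=
  (∀ X : Finset W, Lt a b q m B X → 4 * m ≤ cw a b (ins a b B) q X) ∨
  (∀ X : Finset W, Lt a b q m B X →
    2 ≤ ((ins a b B).filter (fun f => ¬ (a f ∈ X ↔ b f ∈ X) ∧ m ≤ q f)).card)

/-- every edge which is not a loop lies in a good vertex set -/
def HL (a b : E → W) (q : E → ℕ) : Prop :=
  ∀ e, a e ≠ b e → ∃ B : Finset W, a e ∈ B ∧ b e ∈ B ∧ GoodB a b q (q e) B

lemma crossing_ne (a b : E → W) (X : Finset W) (e : E) (h : ¬ (a e ∈ X ↔ b e ∈ X)) :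
    a e ≠ b e := fun h1 => h (by rw [h1])

lemma crossing_sep (a b : E → W) (B X : Finset W) (e : E) (h1 : a e ∈ B) (h2 : b e ∈ B)
    (h3 : ¬ (a e ∈ X ↔ b e ∈ X)) : (∃ u ∈ B, u ∈ X) ∧ (∃ v ∈ B, v ∉ X) := by
  by_cases h4 : a e ∈ X
  · have h5 : b e ∉ X := fun h5 => h3 ⟨fun _ => h5, fun _ => h4⟩
    exact ⟨⟨_, h1, h4⟩, ⟨_, h2, h5⟩⟩
  · have h5 : b e ∈ X := by
      by_contra h5; exact h3 ⟨fun h => absurd h h4, fun h => absurd h h5⟩
    exact ⟨⟨_, h2, h5⟩, ⟨_, h1, h4⟩⟩

/-- decomposition inside a good vertex set -/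
lemma block (a b : E → W) (q : E → ℕ) (M0 : ℕ) (B : Finset W) (w0 : W)
    (hq : ∀ e, a e ≠ b e → q e ≤ M0) (hB : GoodB a b q M0 B) :
    ∃ H1 : Fin M0 → Finset E,
      (∀ e, (univ.filter (fun j => e ∈ H1 j)).card =
        if (a e ∈ B ∧ b e ∈ B) ∧ a e ≠ b e then q e else 0) ∧
      ∀ j, ∀ X : Finset W, (∃ u ∈ B, u ∈ X) → (∃ v ∈ B, v ∉ X) →
        2 ≤ ((H1 j).filter (fun e => ¬ (a e ∈ X ↔ b e ∈ X))).card := by
  classical
  have hlt : ∀ X : Finset W, (∃ u ∈ B, u ∈ X) → (∃ v ∈ B, v ∉ X) → Lt a b q M0 B X :=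
    fun X hu hv => ⟨hu, hv, fun f _ hf => hq f (crossing_ne a b X f hf)⟩
  rcases hB with hB | hB
  · let a1 : E → W := fun e => if a e ∈ B ∧ b e ∈ B then a e else w0
    let b1 : E → W := fun e => if a e ∈ B ∧ b e ∈ B then b e else w0
    let q1 : E → ℕ := fun e => if (a e ∈ B ∧ b e ∈ B) ∧ a e ≠ b e then q e else 0
    have hcr1 : ∀ (X : Finset W) e, ¬ (a1 e ∈ X ↔ b1 e ∈ X) ↔
        (a e ∈ B ∧ b e ∈ B) ∧ ¬ (a e ∈ X ↔ b e ∈ X) := by
      intro X e
      by_cases h : a e ∈ B ∧ b e ∈ B
      · simp only [a1, b1, if_pos h, h, true_and]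
      · simp only [a1, b1, if_neg h, h, false_and]; simp
    have hcw1 : ∀ X : Finset W, cw a1 b1 univ q1 X = cw a b (ins a b B) q X := by
      intro X
      unfold cw
      have h1 : univ.filter (fun e => ¬ (a1 e ∈ X ↔ b1 e ∈ X)) =
          (ins a b B).filter (fun e => ¬ (a e ∈ X ↔ b e ∈ X)) := by
        ext e
        rw [Finset.mem_filter, Finset.mem_filter, hcr1]
        unfold ins
        rw [Finset.mem_filter]
        simp only [Finset.mem_univ, true_and]
      rw [h1]
      apply Finset.sum_congr rfl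
      intro e he
      rw [Finset.mem_filter] at he
      have h2 := he.1
      unfold ins at h2
      rw [Finset.mem_filter] at h2
      exact if_pos ⟨h2.2, crossing_ne a b X e he.2⟩
    obtain ⟨H1, hH1a, hH1b⟩ := pack_pairs a1 b1 q1 M0 (by
        intro e
        show (if (a e ∈ B ∧ b e ∈ B) ∧ a e ≠ b e then q e else 0) ≤ M0
        split_ifs with h
        · exact hq e h.2
        · exact Nat.zero_le _) (by
        rintro X ⟨e, he⟩
        rw [hcw1]
        have h1 := (hcr1 X e).1 he
        obtain ⟨h2, h3⟩ := crossing_sep a b B X e h1.1.1 h1.1.2 h1.2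
        exact hB X (hlt X h2 h3))
    refine ⟨H1, hH1a, ?_⟩
    intro j X hu hv
    have h1 := hB X (hlt X hu hv)
    have hM0 : 0 < M0 := lt_of_le_of_lt (Nat.zero_le _) j.isLt
    have h2 : ∃ e, ¬ (a1 e ∈ X ↔ b1 e ∈ X) := by
      by_contra hcon
      push Not at hcon
      have h3 : cw a1 b1 univ q1 X = 0 := by
        unfold cw
        apply Finset.sum_eq_zero
        intro e he
        exact absurd (hcon e) (Finset.mem_filter.1 he).2
      rw [hcw1] at h3
      omega
    refine le_trans (hH1b j X h2) (Finset.card_le_card ?_)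
    intro e he
    rw [Finset.mem_filter] at he ⊢
    exact ⟨he.1, ((hcr1 X e).1 he.2).2⟩
  · have hJ : ∀ e, ∃ J : Finset (Fin M0),
        J.card = if (a e ∈ B ∧ b e ∈ B) ∧ a e ≠ b e then q e else 0 := by
      intro e
      obtain ⟨J, -, hJ⟩ := Finset.exists_subset_card_eq (s := (univ : Finset (Fin M0)))
        (n := if (a e ∈ B ∧ b e ∈ B) ∧ a e ≠ b e then q e else 0) (by
          rw [Finset.card_univ, Fintype.card_fin]
          split_ifs with h
          · exact hq e h.2
          · exact Nat.zero_le _)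
      exact ⟨J, hJ⟩
    choose J hJ using hJ
    refine ⟨fun j => univ.filter (fun e => j ∈ J e), ?_, ?_⟩
    · intro e
      rw [← hJ e]
      congr 1
      ext j
      simp
    · intro j X hu hv
      refine le_trans (hB X (hlt X hu hv)) (Finset.card_le_card ?_)
      intro e he
      unfold ins at he
      rw [Finset.mem_filter, Finset.mem_filter] at he
      rw [Finset.mem_filter, Finset.mem_filter]
      refine ⟨⟨Finset.mem_univ _, ?_⟩, he.2.1⟩
      have hne := crossing_ne a b X e he.2.1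
      have h1 := hJ e
      rw [if_pos ⟨he.1.2, hne⟩] at h1
      have h2 := hq e hne
      have h3 : (J e).card = Fintype.card (Fin M0) := by
        rw [Fintype.card_fin]; have := he.2.2; omega
      rw [Finset.card_eq_iff_eq_univ] at h3
      rw [h3]; exact Finset.mem_univ _

theorem strong (q : E → ℕ) : ∀ (n : ℕ) (a b : E → W),
    (univ.filter (fun e => a e ≠ b e)).card = n → HL a b q →
    ∀ M : ℕ, (∀ e, a e ≠ b e → q e ≤ M) →
    ∃ H : Fin M → Finset E, (∀ j, ∀ e ∈ H j, a e ≠ b e) ∧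
      (∀ e, a e ≠ b e → (univ.filter (fun j => e ∈ H j)).card = q e) ∧
      ∀ j, ∀ X : Finset W, ((H j).filter (fun e => ¬ (a e ∈ X ↔ b e ∈ X))).card ≠ 1 := by
  intro n
  induction n using Nat.strong_induction_on with
  | _ n ih =>
  intro a b hn hHL M hM
  by_cases hne : (univ.filter (fun e => a e ≠ b e)).Nonempty
  swap
  · rw [Finset.not_nonempty_iff_eq_empty] at hne
    refine ⟨fun _ => ∅, by simp, ?_, by simp⟩
    intro e he
    exfalso
    have : e ∈ univ.filter (fun e => a e ≠ b e) := Finset.mem_filter.2 ⟨Finset.mem_univ _, he⟩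
    rw [hne] at this
    exact absurd this (Finset.notMem_empty _)
  obtain ⟨e0, he0, hmax⟩ := Finset.exists_max_image _ q hne
  rw [Finset.mem_filter] at he0
  have hne0 := he0.2
  have hmax' : ∀ e, a e ≠ b e → q e ≤ q e0 := fun e he =>
    hmax e (Finset.mem_filter.2 ⟨Finset.mem_univ _, he⟩)
  obtain ⟨B, haB, hbB, hB⟩ := hHL e0 hne0
  set M0 := q e0 with hM0
  have hM0M : M0 ≤ M := hM e0 hne0
  -- the decomposition inside `B`
  obtain ⟨H1, hH1a, hH1b⟩ := block a b q M0 B (a e0) hmax' hB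
  have hH1mem : ∀ j, ∀ e ∈ H1 j, (a e ∈ B ∧ b e ∈ B) ∧ a e ≠ b e := by
    intro j e he
    by_contra hcon
    have h1 := hH1a e
    rw [if_neg hcon, Finset.card_eq_zero, Finset.filter_eq_empty_iff] at h1
    exact h1 (Finset.mem_univ j) he
  -- the contracted graph
  let ρ : W → W := fun w => if w ∈ B then a e0 else w
  have hρB : ∀ w, w ∈ B → ρ w = a e0 := fun w h => if_pos h
  have hρn : ∀ w, w ∉ B → ρ w = w := fun w h => if_neg h
  have hloop2 : ∀ e, ρ (a e) ≠ ρ (b e) ↔ a e ≠ b e ∧ ¬ (a e ∈ B ∧ b e ∈ B) := by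
    intro e
    constructor
    · intro h
      refine ⟨fun h1 => h (by rw [h1]), fun h1 => h (by rw [hρB _ h1.1, hρB _ h1.2])⟩
    · rintro ⟨h1, h2⟩ h3
      by_cases h4 : a e ∈ B
      · have h5 : b e ∉ B := fun h5 => h2 ⟨h4, h5⟩
        rw [hρB _ h4, hρn _ h5] at h3
        exact h5 (h3 ▸ haB)
      · by_cases h5 : b e ∈ B
        · rw [hρn _ h4, hρB _ h5] at h3
          exact h4 (h3 ▸ haB)
        · rw [hρn _ h4, hρn _ h5] at h3
          exact h1 h3
  have hlt : (univ.filter (fun e => ρ (a e) ≠ ρ (b e))).card < n := by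
    rw [← hn]
    apply Finset.card_lt_card
    rw [Finset.ssubset_iff_of_subset]
    · refine ⟨e0, Finset.mem_filter.2 ⟨Finset.mem_univ _, hne0⟩, ?_⟩
      rw [Finset.mem_filter, hloop2]
      rintro ⟨_, _, h⟩
      exact h ⟨haB, hbB⟩
    · intro e he
      rw [Finset.mem_filter, hloop2] at he
      exact Finset.mem_filter.2 ⟨Finset.mem_univ _, he.2.1⟩
  obtain ⟨H2, hH2a, hH2b, hH2c⟩ := ih _ hlt (fun e => ρ (a e)) (fun e => ρ (b e)) rfl (by
      intro e he
      obtain ⟨C, haC, hbC, hC⟩ := hHL e ((hloop2 e).1 he).1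
      refine ⟨C.image ρ, Finset.mem_image_of_mem _ haC, Finset.mem_image_of_mem _ hbC, ?_⟩
      have hsub : ∀ X : Finset W, ∀ f, f ∈ ins a b C →
          ¬ (a f ∈ univ.filter (fun w => ρ w ∈ X) ↔ b f ∈ univ.filter (fun w => ρ w ∈ X)) →
          f ∈ ins (fun e => ρ (a e)) (fun e => ρ (b e)) (C.image ρ) ∧
            ¬ (ρ (a f) ∈ X ↔ ρ (b f) ∈ X) := by
        intro X f hf1 hf2
        unfold ins at hf1 ⊢
        rw [Finset.mem_filter] at hf1 ⊢
        refine ⟨⟨Finset.mem_univ _, Finset.mem_image_of_mem _ hf1.2.1,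
          Finset.mem_image_of_mem _ hf1.2.2⟩, ?_⟩
        simpa using hf2
      have hpull : ∀ X : Finset W,
          Lt (fun e => ρ (a e)) (fun e => ρ (b e)) q (q e) (C.image ρ) X →
          Lt a b q (q e) C (univ.filter (fun w => ρ w ∈ X)) := by
        rintro X ⟨⟨u', hu', huX⟩, ⟨v', hv', hvX⟩, hle⟩
        obtain ⟨u, hu, rfl⟩ := Finset.mem_image.1 hu'
        obtain ⟨v, hv, rfl⟩ := Finset.mem_image.1 hv'
        refine ⟨⟨u, hu, by simpa using huX⟩, ⟨v, hv, by simpa using hvX⟩, ?_⟩
        intro f hf1 hf2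
        obtain ⟨h1, h2⟩ := hsub X f hf1 hf2
        exact hle f h1 h2
      rcases hC with hC | hC
      · left
        intro X hX
        refine le_trans (hC _ (hpull X hX)) ?_
        unfold cw
        apply Finset.sum_le_sum_of_subset
        intro f hf
        rw [Finset.mem_filter] at hf ⊢
        exact hsub X f hf.1 hf.2
      · right
        intro X hX
        refine le_trans (hC _ (hpull X hX)) (Finset.card_le_card ?_)
        intro f hf
        rw [Finset.mem_filter] at hf ⊢
        obtain ⟨h1, h2⟩ := hsub X f hf.1 hf.2.1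
        exact ⟨h1, h2, hf.2.2⟩) M0 (by
      intro e he
      exact hmax' e ((hloop2 e).1 he).1)
  -- combination
  let H : Fin M → Finset E := fun j => if h : j.val < M0 then H2 ⟨j.val, h⟩ ∪ H1 ⟨j.val, h⟩ else ∅
  have hH : ∀ j (h : j.val < M0), H j = H2 ⟨j.val, h⟩ ∪ H1 ⟨j.val, h⟩ := fun j h => dif_pos h
  have hH' : ∀ j : Fin M, ¬ j.val < M0 → H j = ∅ := fun j h => dif_neg h
  refine ⟨H, ?_, ?_, ?_⟩
  · intro j e he
    by_cases hj : j.val < M0
    · rw [hH j hj, Finset.mem_union] at he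
      rcases he with h | h
      · exact ((hloop2 e).1 (hH2a _ e h)).1
      · exact (hH1mem _ e h).2
    · rw [hH' j hj] at he
      exact absurd he (Finset.notMem_empty _)
  · intro e he
    have h1 : (univ.filter (fun j => e ∈ H j)).card =
        (univ.filter (fun j : Fin M0 => e ∈ H2 j ∪ H1 j)).card := by
      symm
      apply Finset.card_bij (fun (j : Fin M0) _ => (⟨j.val, lt_of_lt_of_le j.isLt hM0M⟩ : Fin M))
      · intro j hj
        rw [Finset.mem_filter] at hj ⊢
        refine ⟨Finset.mem_univ _, ?_⟩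
        rw [hH _ j.isLt]
        exact hj.2
      · intro j _ k _ hjk
        exact Fin.ext (Fin.mk.inj_iff.1 hjk)
      · intro j hj
        rw [Finset.mem_filter] at hj
        by_cases hj' : j.val < M0
        · refine ⟨⟨j.val, hj'⟩, ?_, rfl⟩
          rw [Finset.mem_filter]
          refine ⟨Finset.mem_univ _, ?_⟩
          have := hj.2
          rw [hH j hj'] at this
          exact this
        · have := hj.2
          rw [hH' j hj'] at this
          exact absurd this (Finset.notMem_empty _)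
    rw [h1]
    by_cases hin : a e ∈ B ∧ b e ∈ B
    · have h2 : univ.filter (fun j : Fin M0 => e ∈ H2 j ∪ H1 j) =
          univ.filter (fun j : Fin M0 => e ∈ H1 j) := by
        ext j
        rw [Finset.mem_filter, Finset.mem_filter, Finset.mem_union]
        constructor
        · rintro ⟨_, h | h⟩
          · exact absurd hin ((hloop2 e).1 (hH2a j e h)).2
          · exact ⟨Finset.mem_univ _, h⟩
        · rintro ⟨_, h⟩; exact ⟨Finset.mem_univ _, Or.inr h⟩
      rw [h2, hH1a e, if_pos ⟨hin, he⟩]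
    · have h2 : univ.filter (fun j : Fin M0 => e ∈ H2 j ∪ H1 j) =
          univ.filter (fun j : Fin M0 => e ∈ H2 j) := by
        ext j
        rw [Finset.mem_filter, Finset.mem_filter, Finset.mem_union]
        constructor
        · rintro ⟨_, h | h⟩
          · exact ⟨Finset.mem_univ _, h⟩
          · exact absurd (hH1mem j e h).1 hin
        · rintro ⟨_, h⟩; exact ⟨Finset.mem_univ _, Or.inl h⟩
      rw [h2]
      exact hH2b e ((hloop2 e).2 ⟨he, hin⟩)
  · intro j X
    by_cases hj : j.val < M0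
    · rw [hH j hj]
      by_cases hX : (∃ u ∈ B, u ∈ X) ∧ (∃ v ∈ B, v ∉ X)
      · -- `X` separates `B`
        have h3 := hH1b ⟨j.val, hj⟩ X hX.1 hX.2
        have h4 : (H1 ⟨j.val, hj⟩).filter (fun e => ¬ (a e ∈ X ↔ b e ∈ X)) ⊆
            (H2 ⟨j.val, hj⟩ ∪ H1 ⟨j.val, hj⟩).filter (fun e => ¬ (a e ∈ X ↔ b e ∈ X)) :=
          Finset.filter_subset_filter _ Finset.subset_union_right
        have h5 := Finset.card_le_card h4
        omega
      · -- `X` does not separate `B`
        have hρX : ∀ w, ρ w ∈ X ↔ w ∈ X := by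
          intro w
          by_cases hw : w ∈ B
          · rw [hρB w hw]
            constructor
            · intro h
              by_contra h1
              exact hX ⟨⟨_, haB, h⟩, ⟨w, hw, h1⟩⟩
            · intro h
              by_contra h1
              exact hX ⟨⟨w, hw, h⟩, ⟨_, haB, h1⟩⟩
          · rw [hρn w hw]
        have h1 : (H2 ⟨j.val, hj⟩ ∪ H1 ⟨j.val, hj⟩).filter (fun e => ¬ (a e ∈ X ↔ b e ∈ X)) =
            (H2 ⟨j.val, hj⟩).filter (fun e => ¬ (ρ (a e) ∈ X ↔ ρ (b e) ∈ X)) := by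
          ext e
          rw [Finset.mem_filter, Finset.mem_filter, Finset.mem_union, hρX, hρX]
          constructor
          · rintro ⟨h | h, h2⟩
            · exact ⟨h, h2⟩
            · have h3 := hH1mem _ e h
              exact absurd (crossing_sep a b B X e h3.1.1 h3.1.2 h2) hX
          · rintro ⟨h, h2⟩; exact ⟨Or.inl h, h2⟩
        rw [h1]
        exact hH2c ⟨j.val, hj⟩ X
    · rw [hH' j hj]
      simp

end Pool.Agent.H825R2.EW
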