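import Pool.Agent.H825R2.EW.PTrees
import Pool.Agent.H825R2.EW.Local

set_option autoImplicit false
set_option linter.unusedSectionVars false

/-!
Hierarchical packing of pairs of disjoint edge sets with the same components
(partition conditions).
-/

namespace Pool.Agent.H825R2.EW

open Finset

variable {W E : Type} [Fintype W] [DecidableEq W] [Fintype E] [DecidableEq E]

/-- every edge which is not a loop lies in a vertex set whose partitions have enough capacity -/
def HP (a b : E → W) (q : E → ℕ) (N : ℕ → ℕ) : Prop :=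
  ∀ e, a e ≠ b e → ∃ B : Finset W, a e ∈ B ∧ b e ∈ B ∧
    ∀ κ : W → ℕ, (∀ f ∈ ins a b B, κ (a f) ≠ κ (b f) → q f ≤ q e) →
      2 * N (q e) * ((B.image κ).card - 1) ≤
        ∑ f ∈ (ins a b B).filter (fun f => κ (a f) ≠ κ (b f)), min (q f) (2 * N (q e) - q f)

/-- the edge `e` joins two vertices of the same component of `T` -/
def All (a b : E → W) (T : Finset E) (e : E) : Prop :=
  ∀ X : Finset W, ¬ (a e ∈ X ↔ b e ∈ X) → ∃ t ∈ T, ¬ (a t ∈ X ↔ b t ∈ X)

open Classical in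
theorem strongP (q : E → ℕ) (N : ℕ → ℕ) (hmono : Monotone N) (hqN : ∀ e, q e ≤ 2 * N (q e)) :
    ∀ (n : ℕ) (a b : E → W),
    (univ.filter (fun e => a e ≠ b e)).card = n → HP a b q N →
    ∀ K : ℕ, (∀ e, a e ≠ b e → N (q e) ≤ K) →
    ∃ T0 T1 : Fin K → Finset E, (∀ j, ∀ e, e ∈ T0 j ∨ e ∈ T1 j → a e ≠ b e) ∧
      (∀ j, Disjoint (T0 j) (T1 j)) ∧
      (∀ j, ∀ X : Finset W, (∃ t ∈ T0 j, ¬ (a t ∈ X ↔ b t ∈ X)) ↔
        (∃ t ∈ T1 j, ¬ (a t ∈ X ↔ b t ∈ X))) ∧
      (∀ e, a e ≠ b e → (univ.filter (fun j => e ∈ T0 j ∨ e ∈ T1 j)).card ≤ q e ∧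
        q e + (univ.filter (fun j => e ∈ T0 j ∨ e ∈ T1 j)).card ≤
          2 * (univ.filter (fun j => All a b (T0 j) e)).card) := by
  intro n
  induction n using Nat.strong_induction_on with
  | _ n ih =>
  intro a b hn hHL K hK
  by_cases hne : (univ.filter (fun e => a e ≠ b e)).Nonempty
  swap
  · rw [Finset.not_nonempty_iff_eq_empty] at hne
    refine ⟨fun _ => ∅, fun _ => ∅, by simp, by simp, by simp, ?_⟩
    intro e he
    exfalso
    have : e ∈ univ.filter (fun e => a e ≠ b e) := Finset.mem_filter.2 ⟨Finset.mem_univ _, he⟩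
    rw [hne] at this
    exact absurd this (Finset.notMem_empty _)
  obtain ⟨e0, he0, hmax⟩ := Finset.exists_max_image _ q hne
  rw [Finset.mem_filter] at he0
  have hne0 := he0.2
  have hmax' : ∀ e, a e ≠ b e → q e ≤ q e0 := fun e he =>
    hmax e (Finset.mem_filter.2 ⟨Finset.mem_univ _, he⟩)
  obtain ⟨B, haB, hbB, hB⟩ := hHL e0 hne0
  set K0 := N (q e0) with hK0
  have hK0K : K0 ≤ K := hK e0 hne0
  have hNK0 : ∀ e, a e ≠ b e → N (q e) ≤ K0 := fun e he => hmono (hmax' e he)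
  have hq2 : ∀ e, a e ≠ b e → q e ≤ 2 * K0 := fun e he =>
    le_trans (hqN e) (Nat.mul_le_mul_left 2 (hNK0 e he))
  have hBκ : ∀ κ : W → ℕ, 2 * K0 * ((B.image κ).card - 1) ≤
      ∑ f ∈ (ins a b B).filter (fun f => κ (a f) ≠ κ (b f)), min (q f) (2 * K0 - q f) :=
    fun κ => hB κ (fun f _ hf => hmax' f (fun h => hf (by rw [h])))
  -- the graph inside `B`
  let w0 : W := a e0
  let a1 : E → W := fun e => if a e ∈ B ∧ b e ∈ B then a e else w0
  let b1 : E → W := fun e => if a e ∈ B ∧ b e ∈ B then b e else w0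
  let q1 : E → ℕ := fun e =>
    if (a e ∈ B ∧ b e ∈ B) ∧ a e ≠ b e then min (q e) (2 * K0 - q e) else 0
  have hcr1 : ∀ (X : Finset W) e, ¬ (a1 e ∈ X ↔ b1 e ∈ X) ↔
      (a e ∈ B ∧ b e ∈ B) ∧ ¬ (a e ∈ X ↔ b e ∈ X) := by
    intro X e
    by_cases h : a e ∈ B ∧ b e ∈ B
    · simp only [a1, b1, if_pos h, h, true_and]
    · simp only [a1, b1, if_neg h, h, false_and]; simp
  have hcr1κ : ∀ (κ : W → ℕ) e, κ (a1 e) ≠ κ (b1 e) ↔
      (a e ∈ B ∧ b e ∈ B) ∧ κ (a e) ≠ κ (b e) := by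
    intro κ e
    by_cases h : a e ∈ B ∧ b e ∈ B
    · simp only [a1, b1, if_pos h, h, true_and]
    · simp only [a1, b1, if_neg h, h, false_and]; simp
  have hcw1 : ∀ κ : W → ℕ, ∑ e ∈ univ.filter (fun e => κ (a1 e) ≠ κ (b1 e)), q1 e =
      ∑ f ∈ (ins a b B).filter (fun f => κ (a f) ≠ κ (b f)), min (q f) (2 * K0 - q f) := by
    intro κ
    have h1 : univ.filter (fun e => κ (a1 e) ≠ κ (b1 e)) =
        (ins a b B).filter (fun e => κ (a e) ≠ κ (b e)) := by
      ext e
      rw [Finset.mem_filter, Finset.mem_filter, hcr1κ]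
      unfold ins
      rw [Finset.mem_filter]
      simp only [Finset.mem_univ, true_and]
    rw [h1]
    apply Finset.sum_congr rfl
    intro e he
    rw [Finset.mem_filter] at he
    have h2 := he.1
    unfold ins at h2
    rw [Finset.mem_filter] at h2
    exact if_pos ⟨h2.2, fun h => he.2 (by rw [h])⟩
  obtain ⟨I0, I1, hI0, hI1, hI2⟩ := pack_trees_part a1 b1 B (by
      intro e he
      by_cases h : a e ∈ B ∧ b e ∈ B
      · simp only [a1, b1, if_pos h]; exact h
      · exfalso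
        apply he
        simp only [a1, b1, if_neg h]) q1 K0 (by
      intro e
      show (if (a e ∈ B ∧ b e ∈ B) ∧ a e ≠ b e then min (q e) (2 * K0 - q e) else 0) ≤ K0
      split_ifs with h
      · omega
      · exact Nat.zero_le _) (by
      intro κ
      rw [hcw1]
      exact hBκ κ)
  have hImem : ∀ j, ∀ e, e ∈ I0 j ∨ e ∈ I1 j → (a e ∈ B ∧ b e ∈ B) ∧ a e ≠ b e := by
    intro j e he
    by_contra hcon
    have h1 := hI1 e
    have h2 : q1 e = 0 := if_neg hcon
    rw [h2, Nat.le_zero, Finset.card_eq_zero, Finset.filter_eq_empty_iff] at h1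
    exact h1 (Finset.mem_univ j) he
  have hIsep : ∀ j : Fin K0, ∀ X : Finset W, (∃ u ∈ B, u ∈ X) → (∃ v ∈ B, v ∉ X) →
      (∃ e ∈ I0 j, ¬ (a e ∈ X ↔ b e ∈ X)) ∧ (∃ e ∈ I1 j, ¬ (a e ∈ X ↔ b e ∈ X)) := by
    intro j X hu hv
    have hpos : 0 < K0 := lt_of_le_of_lt (Nat.zero_le _) j.isLt
    have h2 : ∃ e, ¬ (a1 e ∈ X ↔ b1 e ∈ X) := by
      by_contra hcon
      push Not at hcon
      obtain ⟨κ, hκ⟩ : ∃ κ : W → ℕ, ∀ w, κ w = if w ∈ X then 1 else 0 := ⟨_, fun _ => rfl⟩
      have h1 := hBκ κ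
      rw [← hcw1] at h1
      have h3 : ∑ e ∈ univ.filter (fun e => κ (a1 e) ≠ κ (b1 e)), q1 e = 0 := by
        apply Finset.sum_eq_zero
        intro e he
        exfalso
        apply (Finset.mem_filter.1 he).2
        rw [hκ, hκ]
        by_cases h4 : a1 e ∈ X
        · rw [if_pos h4, if_pos ((hcon e).1 h4)]
        · rw [if_neg h4, if_neg (fun h5 => h4 ((hcon e).2 h5))]
      rw [h3] at h1
      obtain ⟨u, hu1, hu2⟩ := hu
      obtain ⟨v, hv1, hv2⟩ := hv
      have h5 : 1 < (B.image κ).card := by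
        rw [Finset.one_lt_card]
        refine ⟨_, Finset.mem_image_of_mem _ hu1, _, Finset.mem_image_of_mem _ hv1, ?_⟩
        rw [hκ, hκ, if_pos hu2, if_neg hv2]
        exact one_ne_zero
      have h6 : 2 * K0 * 1 ≤ 2 * K0 * ((B.image κ).card - 1) :=
        Nat.mul_le_mul_left _ (by omega)
      omega
    obtain ⟨⟨e, he, he'⟩, ⟨f, hf, hf'⟩⟩ := hI2 j X h2
    exact ⟨⟨e, he, ((hcr1 X e).1 he').2⟩, ⟨f, hf, ((hcr1 X f).1 hf').2⟩⟩
  -- the contracted graph
  let ρ : W → W := fun w => if w ∈ B then a e0 else w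
  have hρB : ∀ w, w ∈ B → ρ w = a e0 := fun w h => if_pos h
  have hρn : ∀ w, w ∉ B → ρ w = w := fun w h => if_neg h
  have hloop2 : ∀ e, ρ (a e) ≠ ρ (b e) ↔ a e ≠ b e ∧ ¬ (a e ∈ B ∧ b e ∈ B) := by
    intro e
    constructor
    · intro h
      refine ⟨fun h1 => h (by rw [h1]), fun h1 => h (by rw [hρB _ h1.1, hρB _ h1.2])⟩
    · rintro ⟨h1, h2⟩ h3
      by_cases h4 : a e ∈ B
      · have h5 : b e ∉ B := fun h5 => h2 ⟨h4, h5⟩
        rw [hρB _ h4, hρn _ h5] at h3
        exact h5 (h3 ▸ haB)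
      · by_cases h5 : b e ∈ B
        · rw [hρn _ h4, hρB _ h5] at h3
          exact h4 (h3 ▸ haB)
        · rw [hρn _ h4, hρn _ h5] at h3
          exact h1 h3
  have hltn : (univ.filter (fun e => ρ (a e) ≠ ρ (b e))).card < n := by
    rw [← hn]
    apply Finset.card_lt_card
    rw [Finset.ssubset_iff_of_subset]
    · refine ⟨e0, Finset.mem_filter.2 ⟨Finset.mem_univ _, hne0⟩, ?_⟩
      rw [Finset.mem_filter, hloop2]
      rintro ⟨_, _, h⟩
      exact h ⟨haB, hbB⟩
    · intro e he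
      rw [Finset.mem_filter, hloop2] at he
      exact Finset.mem_filter.2 ⟨Finset.mem_univ _, he.2.1⟩
  obtain ⟨R0, R1, hR1, hR2, hR3, hR4⟩ := ih _ hltn (fun e => ρ (a e)) (fun e => ρ (b e)) rfl (by
      intro e he
      obtain ⟨C, haC, hbC, hC⟩ := hHL e ((hloop2 e).1 he).1
      refine ⟨C.image ρ, Finset.mem_image_of_mem _ haC, Finset.mem_image_of_mem _ hbC, ?_⟩
      have hsub : ∀ κ : W → ℕ, ∀ f, f ∈ ins a b C → κ (ρ (a f)) ≠ κ (ρ (b f)) →
          f ∈ ins (fun e => ρ (a e)) (fun e => ρ (b e)) (C.image ρ) ∧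
            κ (ρ (a f)) ≠ κ (ρ (b f)) := by
        intro κ f hf1 hf2
        unfold ins at hf1 ⊢
        rw [Finset.mem_filter] at hf1 ⊢
        exact ⟨⟨Finset.mem_univ _, Finset.mem_image_of_mem _ hf1.2.1,
          Finset.mem_image_of_mem _ hf1.2.2⟩, hf2⟩
      intro κ hle
      have h1 : (C.image ρ).image κ = C.image (fun w => κ (ρ w)) := by
        rw [Finset.image_image]; rfl
      rw [h1]
      refine le_trans (hC (fun w => κ (ρ w)) ?_) ?_
      · intro f hf1 hf2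
        obtain ⟨h1, h2⟩ := hsub κ f hf1 hf2
        exact hle f h1 h2
      · apply Finset.sum_le_sum_of_subset
        intro f hf
        rw [Finset.mem_filter] at hf ⊢
        exact hsub κ f hf.1 hf.2) K0 (by
      intro e he
      exact hNK0 e ((hloop2 e).1 he).1)
  have hρX : ∀ X : Finset W, ¬ ((∃ u ∈ B, u ∈ X) ∧ (∃ v ∈ B, v ∉ X)) → ∀ w, ρ w ∈ X ↔ w ∈ X := by
    intro X hX w
    by_cases hw : w ∈ B
    · rw [hρB w hw]
      constructor
      · intro h
        by_contra h1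
        exact hX ⟨⟨_, haB, h⟩, ⟨w, hw, h1⟩⟩
      · intro h
        by_contra h1
        exact hX ⟨⟨w, hw, h⟩, ⟨_, haB, h1⟩⟩
    · rw [hρn w hw]
  -- combination
  let T0 : Fin K → Finset E := fun j => if h : j.val < K0 then R0 ⟨j.val, h⟩ ∪ I0 ⟨j.val, h⟩ else ∅
  let T1 : Fin K → Finset E := fun j => if h : j.val < K0 then R1 ⟨j.val, h⟩ ∪ I1 ⟨j.val, h⟩ else ∅
  have hT0 : ∀ j (h : j.val < K0), T0 j = R0 ⟨j.val, h⟩ ∪ I0 ⟨j.val, h⟩ := fun j h => dif_pos h
  have hT0' : ∀ j : Fin K, ¬ j.val < K0 → T0 j = ∅ := fun j h => dif_neg h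
  have hT1 : ∀ j (h : j.val < K0), T1 j = R1 ⟨j.val, h⟩ ∪ I1 ⟨j.val, h⟩ := fun j h => dif_pos h
  have hT1' : ∀ j : Fin K, ¬ j.val < K0 → T1 j = ∅ := fun j h => dif_neg h
  -- a general counting lemma
  have hcount : ∀ (P : Fin K → Prop) (Q : Fin K0 → Prop) [DecidablePred P] [DecidablePred Q],
      (∀ j (h : j.val < K0), P j ↔ Q ⟨j.val, h⟩) → (∀ j : Fin K, ¬ j.val < K0 → ¬ P j) →
      (univ.filter P).card = (univ.filter Q).card := by
    intro P Q _ _ h1 h2
    symm
    apply Finset.card_bij (fun (j : Fin K0) _ => (⟨j.val, lt_of_lt_of_le j.isLt hK0K⟩ : Fin K))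
    · intro j hj
      rw [Finset.mem_filter] at hj ⊢
      exact ⟨Finset.mem_univ _, (h1 _ j.isLt).2 hj.2⟩
    · intro j _ k _ hjk
      exact Fin.ext (Fin.mk.inj_iff.1 hjk)
    · intro j hj
      rw [Finset.mem_filter] at hj
      by_cases hj' : j.val < K0
      · refine ⟨⟨j.val, hj'⟩, ?_, rfl⟩
        rw [Finset.mem_filter]
        exact ⟨Finset.mem_univ _, (h1 j hj').1 hj.2⟩
      · exact absurd hj.2 (h2 j hj')
  have hcountle : ∀ (P : Fin K → Prop) (Q : Fin K0 → Prop) [DecidablePred P] [DecidablePred Q],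
      (∀ j (h : j.val < K0), Q ⟨j.val, h⟩ → P j) →
      (univ.filter Q).card ≤ (univ.filter P).card := by
    intro P Q _ _ h1
    apply Finset.card_le_card_of_injOn
      (fun (j : Fin K0) => (⟨j.val, lt_of_lt_of_le j.isLt hK0K⟩ : Fin K))
    · intro j hj
      rw [Finset.mem_coe, Finset.mem_filter] at hj ⊢
      exact ⟨Finset.mem_univ _, h1 _ j.isLt hj.2⟩
    · intro j _ k _ hjk
      exact Fin.ext (Fin.mk.inj_iff.1 hjk)
  refine ⟨T0, T1, ?_, ?_, ?_, ?_⟩
  · intro j e he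
    by_cases hj : j.val < K0
    · rw [hT0 j hj, hT1 j hj, Finset.mem_union, Finset.mem_union] at he
      rcases he with (h | h) | (h | h)
      · exact ((hloop2 e).1 (hR1 _ e (Or.inl h))).1
      · exact (hImem _ e (Or.inl h)).2
      · exact ((hloop2 e).1 (hR1 _ e (Or.inr h))).1
      · exact (hImem _ e (Or.inr h)).2
    · rw [hT0' j hj, hT1' j hj] at he
      simp at he
  · intro j
    by_cases hj : j.val < K0
    · rw [hT0 j hj, hT1 j hj, Finset.disjoint_left]
      intro e h1 h2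
      rw [Finset.mem_union] at h1 h2
      rcases h1 with h1 | h1 <;> rcases h2 with h2 | h2
      · exact Finset.disjoint_left.1 (hR2 _) h1 h2
      · exact ((hloop2 e).1 (hR1 _ e (Or.inl h1))).2 (hImem _ e (Or.inr h2)).1
      · exact ((hloop2 e).1 (hR1 _ e (Or.inr h2))).2 (hImem _ e (Or.inl h1)).1
      · exact Finset.disjoint_left.1 (hI0 _) h1 h2
    · rw [hT0' j hj]
      exact Finset.disjoint_empty_left _
  · intro j X
    by_cases hj : j.val < K0
    · rw [hT0 j hj, hT1 j hj]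
      by_cases hX : (∃ u ∈ B, u ∈ X) ∧ (∃ v ∈ B, v ∉ X)
      · obtain ⟨⟨e, he, he'⟩, ⟨f, hf, hf'⟩⟩ := hIsep ⟨j.val, hj⟩ X hX.1 hX.2
        exact ⟨fun _ => ⟨f, Finset.mem_union_right _ hf, hf'⟩,
          fun _ => ⟨e, Finset.mem_union_right _ he, he'⟩⟩
      · have h1 := hR3 ⟨j.val, hj⟩ X
        simp only [hρX X hX] at h1
        constructor
        · rintro ⟨t, ht, ht'⟩
          rw [Finset.mem_union] at ht
          rcases ht with ht | ht
          · obtain ⟨s, hs, hs'⟩ := h1.1 ⟨t, ht, ht'⟩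
            exact ⟨s, Finset.mem_union_left _ hs, hs'⟩
          · have h3 := hImem _ t (Or.inl ht)
            exact absurd (crossing_sep a b B X t h3.1.1 h3.1.2 ht') hX
        · rintro ⟨t, ht, ht'⟩
          rw [Finset.mem_union] at ht
          rcases ht with ht | ht
          · obtain ⟨s, hs, hs'⟩ := h1.2 ⟨t, ht, ht'⟩
            exact ⟨s, Finset.mem_union_left _ hs, hs'⟩
          · have h3 := hImem _ t (Or.inr ht)
            exact absurd (crossing_sep a b B X t h3.1.1 h3.1.2 ht') hX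
    · rw [hT0' j hj, hT1' j hj]
  · intro e he
    by_cases hin : a e ∈ B ∧ b e ∈ B
    · have h1 : (univ.filter (fun j => e ∈ T0 j ∨ e ∈ T1 j)).card =
          (univ.filter (fun j : Fin K0 => e ∈ I0 j ∨ e ∈ I1 j)).card := by
        apply hcount
        · intro j hj
          rw [hT0 j hj, hT1 j hj, Finset.mem_union, Finset.mem_union]
          have h2 : e ∉ R0 ⟨j.val, hj⟩ := fun h => ((hloop2 e).1 (hR1 _ e (Or.inl h))).2 hin
          have h3 : e ∉ R1 ⟨j.val, hj⟩ := fun h => ((hloop2 e).1 (hR1 _ e (Or.inr h))).2 hin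
          rw [or_iff_right h2, or_iff_right h3]
        · intro j hj
          rw [hT0' j hj, hT1' j hj]
          simp
      have h2 := hI1 e
      have h3 : q1 e = min (q e) (2 * K0 - q e) := if_pos ⟨hin, he⟩
      rw [h3] at h2
      have h4 : K0 ≤ (univ.filter (fun j => All a b (T0 j) e)).card := by
        have h5 := hcountle (fun j => All a b (T0 j) e) (fun _ => True) (by
          intro j hj _ X hX
          obtain ⟨h6, h7⟩ := crossing_sep a b B X e hin.1 hin.2 hX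
          obtain ⟨⟨t, ht, ht'⟩, _⟩ := hIsep ⟨j.val, hj⟩ X h6 h7
          rw [hT0 j hj]
          exact ⟨t, Finset.mem_union_right _ ht, ht'⟩)
        have h6 : (univ.filter (fun _ : Fin K0 => True)).card = K0 := by simp
        omega
      have h5 := hq2 e he
      rw [h1]
      constructor
      · omega
      · omega
    · have h1 : (univ.filter (fun j => e ∈ T0 j ∨ e ∈ T1 j)).card =
          (univ.filter (fun j : Fin K0 => e ∈ R0 j ∨ e ∈ R1 j)).card := by
        apply hcount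
        · intro j hj
          rw [hT0 j hj, hT1 j hj, Finset.mem_union, Finset.mem_union]
          have h2 : e ∉ I0 ⟨j.val, hj⟩ := fun h => hin (hImem _ e (Or.inl h)).1
          have h3 : e ∉ I1 ⟨j.val, hj⟩ := fun h => hin (hImem _ e (Or.inr h)).1
          rw [or_iff_left h2, or_iff_left h3]
        · intro j hj
          rw [hT0' j hj, hT1' j hj]
          simp
      obtain ⟨h2, h3⟩ := hR4 e ((hloop2 e).2 ⟨he, hin⟩)
      have h4 := hcountle (fun j => All a b (T0 j) e)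
        (fun j => All (fun e => ρ (a e)) (fun e => ρ (b e)) (R0 j) e) (by
          intro j hj h5 X hX
          rw [hT0 j hj]
          by_cases hXB : (∃ u ∈ B, u ∈ X) ∧ (∃ v ∈ B, v ∉ X)
          · obtain ⟨⟨t, ht, ht'⟩, _⟩ := hIsep ⟨j.val, hj⟩ X hXB.1 hXB.2
            exact ⟨t, Finset.mem_union_right _ ht, ht'⟩
          · have h6 := h5 X (by
              show ¬ (ρ (a e) ∈ X ↔ ρ (b e) ∈ X)
              rw [hρX X hXB, hρX X hXB]; exact hX)
            obtain ⟨t, ht, ht'⟩ := h6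
            have ht2 : ¬ (ρ (a t) ∈ X ↔ ρ (b t) ∈ X) := ht'
            rw [hρX X hXB, hρX X hXB] at ht2
            exact ⟨t, Finset.mem_union_left _ ht, ht2⟩)
      rw [h1]
      exact ⟨h2, by omega⟩

end Pool.Agent.H825R2.EW
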