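import Pool.Agent.H825R2.EW.Rank

set_option autoImplicit false
set_option linter.unusedSectionVars false

/-!
A rank inequality for the partition structure of a graph (given by two maps `a b : E → W`).
-/

namespace Pool.Agent.H825R2.EW

open Finset
open Pool.Agent.Helper879.ECD (sp Ind sp_mono mem_sp mem_sp_exch sp_exch)

variable {F W E : Type} [Field F] [Fintype W] [DecidableEq W] [Fintype E] [DecidableEq E]

open Classical in
/-- `t` times the rank deficiency is bounded by the weight of the edges between classes. -/
lemma rank_part {ι : Type} [Fintype ι] (a b : E → W) (B : ι → Finset W)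
    (hB : ∀ e, a e ≠ b e → ∃ j, a e ∈ B j ∧ b e ∈ B j) (w : E → ℕ) (t : ℕ)
    (hw : ∀ κ : W → ℕ, ∑ j, t * (((B j).image κ).card - 1) ≤
      ∑ e ∈ univ.filter (fun e => κ (a e) ≠ κ (b e)), w e)
    (S : Submodule F (W → F)) :
    t * Module.finrank F (sp F (incv F a b) univ) ≤
      t * Module.finrank F S + ∑ e ∈ univ.filter (fun e => ¬ incv F a b e ∈ S), w e := by
  let r : W → W → Prop := fun w v => (Pi.single w 1 - Pi.single v 1 : W → F) ∈ S
  have hr_refl : ∀ w, r w w := by
    intro w
    show (Pi.single w 1 - Pi.single w 1 : W → F) ∈ S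
    rw [sub_self]; exact S.zero_mem
  have hr_symm : ∀ w v, r w v → r v w := by
    intro w v h
    show (Pi.single v 1 - Pi.single w 1 : W → F) ∈ S
    have := S.neg_mem h
    rwa [neg_sub] at this
  have hr_trans : ∀ u v w, r u v → r v w → r u w := by
    intro u v w h1 h2
    have h3 := S.add_mem h1 h2
    rwa [sub_add_sub_cancel] at h3
  let cls : W → Finset W := fun w => univ.filter (fun v => r w v)
  have hcls : ∀ w v, v ∈ cls w ↔ r w v := by intro w v; simp [cls]
  have hcls_eq : ∀ w v, cls w = cls v ↔ r w v := by
    intro w v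
    constructor
    · intro h
      have : v ∈ cls v := (hcls _ _).2 (hr_refl _)
      rw [← h, hcls] at this
      exact this
    · intro h
      ext u
      rw [hcls, hcls]
      exact ⟨fun h' => hr_trans _ _ _ (hr_symm _ _ h) h', fun h' => hr_trans _ _ _ h h'⟩
  obtain ⟨n, ⟨enc⟩⟩ : ∃ n : ℕ, Nonempty (Finset W ≃ Fin n) := ⟨_, ⟨Fintype.equivFin _⟩⟩
  let κ : W → ℕ := fun w => (enc (cls w)).val
  have hκ : ∀ w v, κ w = κ v ↔ r w v := by
    intro w v
    rw [← hcls_eq]
    constructor
    · intro h
      exact enc.injective (Fin.ext h)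
    · intro h
      show (enc (cls w)).val = (enc (cls v)).val
      rw [h]
  have hfil : univ.filter (fun e => ¬ incv F a b e ∈ S) =
      univ.filter (fun e => κ (a e) ≠ κ (b e)) := by
    apply Finset.filter_congr
    intro e _
    rw [Ne, hκ]
    exact Iff.rfl
  rw [hfil]
  -- representatives
  by_cases hWe : IsEmpty W
  · have : (sp F (incv F a b) univ) ≤ S := by
      unfold sp
      rw [Submodule.span_le]
      rintro _ ⟨e, _, rfl⟩
      exact (hWe.false (a e)).elim
    have := Nat.mul_le_mul_left t (Submodule.finrank_mono this)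
    omega
  rw [not_isEmpty_iff] at hWe
  obtain ⟨w0⟩ := hWe
  have hrep : ∀ k : ℕ, ∃ w : W, (∃ v, κ v = k) → κ w = k := by
    intro k
    by_cases h : ∃ v, κ v = k
    · obtain ⟨v, hv⟩ := h
      exact ⟨v, fun _ => hv⟩
    · exact ⟨w0, fun h' => absurd h' h⟩
  choose rep hrep using hrep
  have hrep' : ∀ w, κ (rep (κ w)) = κ w := fun w => hrep _ ⟨w, rfl⟩
  -- roots
  have hroot : ∀ j : ι, ∃ w : W, (B j).Nonempty → w ∈ B j := by
    intro j
    by_cases h : (B j).Nonempty
    · obtain ⟨w, hw⟩ := h
      exact ⟨w, fun _ => hw⟩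
    · exact ⟨w0, fun h' => absurd h' h⟩
  choose root hroot using hroot
  let T : ι → Finset (W → F) := fun j =>
    (((B j).image κ).erase (κ (root j))).image
      (fun k => Pi.single (rep k) 1 - Pi.single (rep (κ (root j))) 1)
  have hle : sp F (incv F a b) univ ≤
      S ⊔ Submodule.span F (((univ : Finset ι).biUnion T : Finset (W → F)) : Set (W → F)) := by
    set U := S ⊔ Submodule.span F (((univ : Finset ι).biUnion T : Finset (W → F)) : Set (W → F))
      with hU
    unfold sp
    rw [Submodule.span_le]
    rintro _ ⟨e, _, rfl⟩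
    by_cases hab : a e = b e
    · show incv F a b e ∈ U
      unfold incv
      rw [hab, sub_self]
      exact U.zero_mem
    obtain ⟨j, hja, hjb⟩ := hB e hab
    have key : ∀ w ∈ B j, (Pi.single w 1 - Pi.single (rep (κ (root j))) 1 : W → F) ∈ U := by
      intro w hw
      have h1 : (Pi.single w 1 - Pi.single (rep (κ w)) 1 : W → F) ∈ S :=
        (hκ _ _).1 (hrep' w).symm
      have h2 : (Pi.single (rep (κ w)) 1 - Pi.single (rep (κ (root j))) 1 : W → F) ∈ U := by
        by_cases hk : κ w = κ (root j)
        · rw [hk, sub_self]; exact U.zero_mem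
        · apply Submodule.mem_sup_right
          apply Submodule.subset_span
          rw [Finset.mem_coe, Finset.mem_biUnion]
          refine ⟨j, Finset.mem_univ _, ?_⟩
          exact Finset.mem_image.2 ⟨κ w, Finset.mem_erase.2 ⟨hk, Finset.mem_image_of_mem _ hw⟩, rfl⟩
      have h3 := U.add_mem (Submodule.mem_sup_left h1) h2
      rwa [sub_add_sub_cancel] at h3
    have h4 := U.sub_mem (key _ hja) (key _ hjb)
    rw [sub_sub_sub_cancel_right] at h4
    exact h4
  have h1 := Submodule.finrank_mono hle
  have h2 := Submodule.finrank_add_le_finrank_add_finrank S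
    (Submodule.span F (((univ : Finset ι).biUnion T : Finset (W → F)) : Set (W → F)))
  have h3 : Module.finrank F
      (Submodule.span F (((univ : Finset ι).biUnion T : Finset (W → F)) : Set (W → F))) ≤
      ((univ : Finset ι).biUnion T).card := finrank_span_finset_le_card _
  have h4 : ((univ : Finset ι).biUnion T).card ≤ ∑ j, (((B j).image κ).card - 1) := by
    refine le_trans Finset.card_biUnion_le ?_
    apply Finset.sum_le_sum
    intro j _
    refine le_trans Finset.card_image_le ?_
    by_cases h : (B j).Nonempty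
    · rw [Finset.card_erase_of_mem (Finset.mem_image_of_mem _ (hroot j h))]
    · rw [Finset.not_nonempty_iff_eq_empty] at h
      rw [h]; simp
  have h5 := hw κ
  rw [← Finset.mul_sum] at h5
  have h6 : Module.finrank F (sp F (incv F a b) univ) ≤
      Module.finrank F S + ∑ j, (((B j).image κ).card - 1) := by omega
  have h7 := Nat.mul_le_mul_left t h6
  rw [mul_add] at h7
  omega

end Pool.Agent.H825R2.EW
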