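import Pool.Agent.H825R2.EW.Pairs
import Pool.Agent.H825R2.EW.PRank

set_option autoImplicit false
set_option linter.unusedSectionVars false

/-!
Packing of pairs of disjoint spanning edge sets, with capacities (partition condition).
-/

namespace Pool.Agent.H825R2.EW

open Finset
open Pool.Agent.Helper879.ECD (sp Ind sp_mono mem_sp mem_sp_exch sp_exch)

variable {W E : Type} [Fintype W] [DecidableEq W] [Fintype E] [DecidableEq E]

/-- Packing with capacities. -/
theorem pack_trees_part (a b : E → W) (B : Finset W)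
    (hB : ∀ e, a e ≠ b e → a e ∈ B ∧ b e ∈ B) (q : E → ℕ) (M : ℕ) (hM : ∀ e, q e ≤ M)
    (h : ∀ κ : W → ℕ, 2 * M * ((B.image κ).card - 1) ≤
      ∑ e ∈ univ.filter (fun e => κ (a e) ≠ κ (b e)), q e) :
    ∃ T0 T1 : Fin M → Finset E, (∀ j, Disjoint (T0 j) (T1 j)) ∧
      (∀ e, (univ.filter (fun j => e ∈ T0 j ∨ e ∈ T1 j)).card ≤ q e) ∧
      ∀ j, ∀ X : Finset W, (∃ e, ¬ (a e ∈ X ↔ b e ∈ X)) →
        (∃ e ∈ T0 j, ¬ (a e ∈ X ↔ b e ∈ X)) ∧ (∃ e ∈ T1 j, ¬ (a e ∈ X ↔ b e ∈ X)) := by
  classical
  rcases Nat.eq_zero_or_pos M with hM0 | hM0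
  · subst hM0
    refine ⟨fun _ => ∅, fun _ => ∅, fun j => j.elim0, ?_, fun j => j.elim0⟩
    intro e
    simp
  let a' : E × Fin M → W × Fin M := fun p => (a p.1, p.2)
  let b' : E × Fin M → W × Fin M := fun p => (b p.1, p.2)
  have hx2 : xcfg a b q M 2 = fun p => LinearMap.inr ℚ (W × Fin M → ℚ) (E × Fin M → ℚ)
      (vd M (fun e => M - q e) p) := by
    funext p; unfold xcfg; rw [if_pos rfl]
  have hx : ∀ k : Fin 3, k ≠ 2 → xcfg a b q M k = fun p => LinearMap.inl ℚ (W × Fin M → ℚ)
      (E × Fin M → ℚ) (incv ℚ a' b' p) := by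
    intro k hk
    funext p; unfold xcfg; rw [if_neg hk]
  have hinl : Function.Injective (LinearMap.inl ℚ (W × Fin M → ℚ) (E × Fin M → ℚ)) :=
    LinearMap.inl_injective
  have hinr : Function.Injective (LinearMap.inr ℚ (W × Fin M → ℚ) (E × Fin M → ℚ)) :=
    LinearMap.inr_injective
  -- partitions of the layered graph
  let B' : Fin M → Finset (W × Fin M) := fun j => B.image (fun w => (w, j))
  have hB' : ∀ p : E × Fin M, a' p ≠ b' p → ∃ j, a' p ∈ B' j ∧ b' p ∈ B' j := by
    rintro ⟨e, j⟩ hp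
    have h1 : a e ≠ b e := fun h2 => hp (by show (a e, j) = (b e, j); rw [h2])
    obtain ⟨h2, h3⟩ := hB e h1
    exact ⟨j, Finset.mem_image_of_mem _ h2, Finset.mem_image_of_mem _ h3⟩
  have hpart : ∀ κ : W × Fin M → ℕ, ∑ j, 2 * M * (((B' j).image κ).card - 1) ≤
      ∑ p ∈ univ.filter (fun p => κ (a' p) ≠ κ (b' p)), q p.1 := by
    intro κ
    rw [Finset.sum_filter, Fintype.sum_prod_type_right]
    apply Finset.sum_le_sum
    intro j _
    have h1 := h (fun w => κ (w, j))
    have h2 : (B' j).image κ = B.image (fun w => κ (w, j)) := by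
      simp only [B', Finset.image_image]
      rfl
    rw [h2]
    refine le_trans h1 ?_
    rw [Finset.sum_filter]
  have hH : ∀ R : Finset (E × Fin M), ∑ i, Module.finrank ℚ (sp ℚ (xcfg a b q M i) univ) ≤
      ∑ i, Module.finrank ℚ (sp ℚ (xcfg a b q M i) R) + (univ \ R).card := by
    intro R
    rw [Fin.sum_univ_three, Fin.sum_univ_three, hx 0 (by decide), hx 1 (by decide), hx2,
      finrank_sp_comp _ hinl, finrank_sp_comp _ hinl, finrank_sp_comp _ hinr,
      finrank_sp_comp _ hinr]
    have h1 := rank_part (F := ℚ) a' b' B' hB' (fun p => q p.1) (2 * M) hpart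
      (sp ℚ (incv ℚ a' b') R)
    generalize Module.finrank ℚ (sp ℚ (incv ℚ a' b') univ) = ρu at h1 ⊢
    generalize Module.finrank ℚ (sp ℚ (incv ℚ a' b') R) = ρR at h1 ⊢
    have h2 : ∑ p ∈ univ.filter (fun p => ¬ incv ℚ a' b' p ∈ sp ℚ (incv ℚ a' b') R), q p.1 ≤
        ∑ p ∈ univ \ R, q p.1 := by
      apply Finset.sum_le_sum_of_subset
      intro p hp
      rw [Finset.mem_filter] at hp
      rw [Finset.mem_sdiff]
      exact ⟨Finset.mem_univ _, fun h => hp.2 (mem_sp h)⟩
    let n : E → ℕ := fun e => (univ.filter (fun j : Fin M => (e, j) ∉ R)).card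
    have hfib : ∀ g : E → ℕ, ∑ p ∈ univ \ R, g p.1 = ∑ e, g e * n e := by
      intro g
      have h3 : (univ \ R : Finset (E × Fin M)) = univ.filter (fun p => p ∉ R) := by
        ext p; simp
      rw [h3, Finset.sum_filter, Fintype.sum_prod_type]
      apply Finset.sum_congr rfl
      intro e _
      rw [← Finset.sum_filter]
      show ∑ _j ∈ univ.filter (fun j : Fin M => (e, j) ∉ R), g e = g e * n e
      rw [Finset.sum_const, smul_eq_mul, mul_comm]
    have h3 := vd_rank_univ (M := M) (fun e => M - q e)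
    have h4 := vd_rank (M := M) (fun e => M - q e) (fun e => Nat.sub_le _ _) R
    have hcompl : ∀ e, (R.filter (fun p => p.1 = e)).card = M - n e := by
      intro e
      have h5 : (R.filter (fun p => p.1 = e)).card =
          (univ.filter (fun j : Fin M => (e, j) ∈ R)).card := by
        symm
        apply Finset.card_bij (fun j _ => (e, j))
        · intro j hj
          rw [Finset.mem_filter] at hj ⊢
          exact ⟨hj.2, rfl⟩
        · intro j _ k _ hjk; exact (Prod.mk.inj hjk).2
        · intro p hp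
          rw [Finset.mem_filter] at hp
          refine ⟨p.2, ?_, ?_⟩
          · rw [Finset.mem_filter]
            refine ⟨Finset.mem_univ _, ?_⟩
            rw [← hp.2]; exact hp.1
          · rw [← hp.2]
      have h6 : (univ.filter (fun j : Fin M => (e, j) ∈ R)).card + n e = M := by
        have := Finset.card_filter_add_card_filter_not (s := (univ : Finset (Fin M)))
          (fun j => (e, j) ∈ R)
        rw [Finset.card_univ, Fintype.card_fin] at this
        exact this
      omega
    have hn : ∀ e, n e ≤ M := by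
      intro e
      have h5 : n e ≤ (univ : Finset (Fin M)).card := Finset.card_le_card (Finset.filter_subset _ _)
      rw [Finset.card_univ, Fintype.card_fin] at h5
      exact h5
    have hcard : (univ \ R).card = ∑ e, n e := by
      have := hfib (fun _ => 1)
      simp only [Finset.sum_const, smul_eq_mul, mul_one, one_mul] at this
      exact this
    have hsum : M * ∑ e, (M - q e) + ∑ e, q e * n e ≤
        M * ∑ e, min (M - q e) (R.filter (fun p => p.1 = e)).card + M * ∑ e, n e := by
      rw [Finset.mul_sum, Finset.mul_sum, Finset.mul_sum, ← Finset.sum_add_distrib,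
        ← Finset.sum_add_distrib]
      apply Finset.sum_le_sum
      intro e _
      rw [hcompl e]
      exact arith_key M (q e) (n e) (hM e) (hn e)
    rw [hfib q] at h2
    have h5 := Nat.mul_le_mul_left M h3
    have h6 := Nat.mul_le_mul_left M h4
    generalize Module.finrank ℚ (sp ℚ (vd M (fun e => M - q e)) univ) = ρ2u at h3 h5 ⊢
    generalize Module.finrank ℚ (sp ℚ (vd M (fun e => M - q e)) R) = ρ2R at h4 h6 ⊢
    rw [hcard]
    have h7 : M * (ρu + ρu + ρ2u) ≤ M * (ρR + ρR + ρ2R + ∑ e, n e) := by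
      have e1 : 2 * M * ρu = M * ρu + M * ρu := by ring
      have e2 : 2 * M * ρR = M * ρR + M * ρR := by ring
      rw [e1, e2] at h1
      have e3 : M * (ρu + ρu + ρ2u) = M * ρu + M * ρu + M * ρ2u := by ring
      have e4 : M * (ρR + ρR + ρ2R + ∑ e, n e) =
        M * ρR + M * ρR + M * ρ2R + M * ∑ e, n e := by ring
      rw [e3, e4]
      omega
    exact Nat.le_of_mul_le_mul_left h7 hM0
  obtain ⟨I, hd, hI⟩ := packM (F := ℚ) (K := Fin 3) (x := xcfg a b q M) hH
  have hI0 : sp ℚ (incv ℚ a' b') (I 0) = sp ℚ (incv ℚ a' b') univ := by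
    have := hI 0
    rw [hx 0 (by decide)] at this
    exact sp_comp_eq _ hinl _ _ _ this
  have hI1 : sp ℚ (incv ℚ a' b') (I 1) = sp ℚ (incv ℚ a' b') univ := by
    have := hI 1
    rw [hx 1 (by decide)] at this
    exact sp_comp_eq _ hinl _ _ _ this
  have hI2 : sp ℚ (vd M (fun e => M - q e)) (I 2) = sp ℚ (vd M (fun e => M - q e)) univ := by
    have := hI 2
    rw [hx2] at this
    exact sp_comp_eq _ hinr _ _ _ this
  -- number of slots used by an edge
  have hused : ∀ e, (univ.filter (fun j => (e, j) ∈ I 0 ∨ (e, j) ∈ I 1)).card ≤ q e := by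
    intro e
    have h1 := vd_span (M := M) (fun e => M - q e) (fun e => Nat.sub_le _ _) (I 2) hI2 e
    have h2 : Disjoint (univ.filter (fun j => (e, j) ∈ I 0 ∨ (e, j) ∈ I 1))
        (univ.filter (fun j => (e, j) ∈ I 2)) := by
      rw [Finset.disjoint_left]
      intro j h3 h4
      rw [Finset.mem_filter] at h3 h4
      rcases h3.2 with h5 | h5
      · exact Finset.disjoint_left.1 (hd 0 2 (by decide)) h5 h4.2
      · exact Finset.disjoint_left.1 (hd 1 2 (by decide)) h5 h4.2
    have h3 := Finset.card_union_of_disjoint h2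
    have h4 : (univ.filter (fun j => (e, j) ∈ I 0 ∨ (e, j) ∈ I 1) ∪
        univ.filter (fun j => (e, j) ∈ I 2)).card ≤ M := by
      have := Finset.card_le_univ (univ.filter (fun j => (e, j) ∈ I 0 ∨ (e, j) ∈ I 1) ∪
        univ.filter (fun j => (e, j) ∈ I 2))
      rwa [Fintype.card_fin] at this
    have h5 := hM e
    omega
  refine ⟨fun j => univ.filter (fun e => (e, j) ∈ I 0), fun j => univ.filter (fun e => (e, j) ∈ I 1),
    ?_, ?_, ?_⟩
  · intro j
    rw [Finset.disjoint_left]
    intro e h1 h2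
    rw [Finset.mem_filter] at h1 h2
    exact Finset.disjoint_left.1 (hd 0 1 (by decide)) h1.2 h2.2
  · intro e
    refine le_trans (le_of_eq ?_) (hused e)
    congr 1
    ext j
    simp
  · intro j X hX
    obtain ⟨e, he⟩ := hX
    let X' : Finset (W × Fin M) := univ.filter (fun p => p.1 ∈ X ∧ p.2 = j)
    have hX' : ∀ p, p ∈ X' ↔ p.1 ∈ X ∧ p.2 = j := by intro p; simp [X']
    have hcr : ∃ p, ¬ (a' p ∈ X' ↔ b' p ∈ X') := by
      refine ⟨(e, j), ?_⟩
      rw [hX', hX']
      simpa [a', b'] using he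
    obtain ⟨⟨e0, j0⟩, h01, h02⟩ := span_meets_cut a' b' (I 0) hI0 X' hcr
    obtain ⟨⟨e1, j1⟩, h11, h12⟩ := span_meets_cut a' b' (I 1) hI1 X' hcr
    have hj0 : j0 = j := by
      by_contra hcon
      apply h02
      rw [hX', hX']
      simp [a', b', hcon]
    have hj1 : j1 = j := by
      by_contra hcon
      apply h12
      rw [hX', hX']
      simp [a', b', hcon]
    subst hj0
    rw [hj1] at h11 h12
    rw [hX', hX'] at h02 h12
    refine ⟨⟨e0, ?_, ?_⟩, ⟨e1, ?_, ?_⟩⟩
    · rw [Finset.mem_filter]; exact ⟨Finset.mem_univ _, h01⟩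
    · simpa [a', b'] using h02
    · rw [Finset.mem_filter]; exact ⟨Finset.mem_univ _, h11⟩
    · simpa [a', b'] using h12

end Pool.Agent.H825R2.EW
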