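import Pool.Agent.H825R2.EW.Vdm

set_option autoImplicit false
set_option linter.unusedSectionVars false

/-!
Packing of spanning subgraphs in which every nonempty cut has at least two edges, with capacities.
-/

namespace Pool.Agent.H825R2.EW

open Finset
open Pool.Agent.Helper879.ECD (sp Ind sp_mono mem_sp mem_sp_exch sp_exch)

lemma sp_comp {F U U' E : Type} [Field F] [AddCommGroup U] [Module F U] [AddCommGroup U']
    [Module F U'] (f : U →ₗ[F] U') (x : E → U) (I : Finset E) :
    sp F (fun e => f (x e)) I = (sp F x I).map f := by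
  unfold sp
  rw [Submodule.map_span, Set.image_image]

lemma finrank_sp_comp {F U U' E : Type} [Field F] [AddCommGroup U] [Module F U] [AddCommGroup U']
    [Module F U'] (f : U →ₗ[F] U') (hf : Function.Injective f) (x : E → U) (I : Finset E) :
    Module.finrank F (sp F (fun e => f (x e)) I) = Module.finrank F (sp F x I) := by
  rw [sp_comp]
  exact (Submodule.equivMapOfInjective f hf (sp F x I)).finrank_eq.symm

lemma sp_comp_eq {F U U' E : Type} [Field F] [AddCommGroup U] [Module F U] [AddCommGroup U']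
    [Module F U'] (f : U →ₗ[F] U') (hf : Function.Injective f) (x : E → U) (I J : Finset E)
    (h : sp F (fun e => f (x e)) I = sp F (fun e => f (x e)) J) : sp F x I = sp F x J := by
  rw [sp_comp, sp_comp] at h
  exact Submodule.map_injective_of_injective hf h

variable {W E : Type} [Fintype W] [DecidableEq W] [Fintype E] [DecidableEq E]

lemma arith_key (M q n : ℕ) (hq : q ≤ M) (hn : n ≤ M) :
    M * (M - q) + q * n ≤ M * min (M - q) (M - n) + M * n := by
  obtain ⟨s, rfl⟩ := Nat.exists_eq_add_of_le hq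
  rcases le_total (q + s - q) (q + s - n) with h | h
  · rw [min_eq_left h]
    have := Nat.mul_le_mul_right n hq
    omega
  · rw [min_eq_right h]
    have h1 : (q + s) * (q + s - n) + (q + s) * n = (q + s) * (q + s) := by
      rw [← mul_add, Nat.sub_add_cancel hn]
    have h2 : (q + s) * (q + s - q) + (q + s) * q = (q + s) * (q + s) := by
      rw [← mul_add, Nat.sub_add_cancel hq]
    have h3 := Nat.mul_le_mul_left q hn
    have h4 : q * (q + s) = (q + s) * q := mul_comm _ _
    omega

/-- the three configurations -/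
def xcfg (a b : E → W) (q : E → ℕ) (M : ℕ) (k : Fin 3) (p : E × Fin M) :
    (W × Fin M → ℚ) × (E × Fin M → ℚ) :=
  if k = 2 then LinearMap.inr ℚ _ _ (vd M (fun e => M - q e) p)
  else LinearMap.inl ℚ _ _ (incv ℚ (fun p : E × Fin M => (a p.1, p.2))
    (fun p : E × Fin M => (b p.1, p.2)) p)

/-- Packing with capacities. -/
theorem pack_pairs (a b : E → W) (q : E → ℕ) (M : ℕ) (hM : ∀ e, q e ≤ M)
    (h : ∀ X : Finset W, (∃ e, ¬ (a e ∈ X ↔ b e ∈ X)) → 4 * M ≤ cw a b univ q X) :
    ∃ H : Fin M → Finset E, (∀ e, (univ.filter (fun j => e ∈ H j)).card = q e) ∧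
      ∀ j, ∀ X : Finset W, (∃ e, ¬ (a e ∈ X ↔ b e ∈ X)) →
        2 ≤ ((H j).filter (fun e => ¬ (a e ∈ X ↔ b e ∈ X))).card := by
  classical
  rcases Nat.eq_zero_or_pos M with hM0 | hM0
  · subst hM0
    refine ⟨fun _ => ∅, ?_, fun j => j.elim0⟩
    intro e
    have := hM e
    simp only [Finset.univ_eq_empty, Finset.filter_empty, Finset.card_empty]
    omega
  let a' : E × Fin M → W × Fin M := fun p => (a p.1, p.2)
  let b' : E × Fin M → W × Fin M := fun p => (b p.1, p.2)
  have hx2 : xcfg a b q M 2 = fun p => LinearMap.inr ℚ (W × Fin M → ℚ) (E × Fin M → ℚ)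
      (vd M (fun e => M - q e) p) := by
    funext p; unfold xcfg; rw [if_pos rfl]
  have hx : ∀ k : Fin 3, k ≠ 2 → xcfg a b q M k = fun p => LinearMap.inl ℚ (W × Fin M → ℚ)
      (E × Fin M → ℚ) (incv ℚ a' b' p) := by
    intro k hk
    funext p; unfold xcfg; rw [if_neg hk]
  have hinl : Function.Injective (LinearMap.inl ℚ (W × Fin M → ℚ) (E × Fin M → ℚ)) :=
    LinearMap.inl_injective
  have hinr : Function.Injective (LinearMap.inr ℚ (W × Fin M → ℚ) (E × Fin M → ℚ)) :=
    LinearMap.inr_injective
  -- cuts of the layered graph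
  have hcut : ∀ X : Finset (W × Fin M), (∃ e, ¬ (a' e ∈ X ↔ b' e ∈ X)) →
      4 * M ≤ cw a' b' univ (fun p => q p.1) X := by
    rintro X ⟨⟨e, j⟩, he⟩
    let Y : Finset W := univ.filter (fun w => (w, j) ∈ X)
    have hY : ∀ w, w ∈ Y ↔ (w, j) ∈ X := by intro w; simp [Y]
    have h1 := h Y ⟨e, by rw [hY, hY]; exact he⟩
    refine le_trans h1 ?_
    unfold cw
    have h2 : ∑ e ∈ univ.filter (fun e => ¬ (a e ∈ Y ↔ b e ∈ Y)), q e =
        ∑ p ∈ (univ.filter (fun e => ¬ (a e ∈ Y ↔ b e ∈ Y))).image (fun e => (e, j)), q p.1 := by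
      rw [Finset.sum_image (fun e _ f _ hef => (Prod.mk.inj hef).1)]
    rw [h2]
    apply Finset.sum_le_sum_of_subset
    intro p hp
    obtain ⟨f, hf, rfl⟩ := Finset.mem_image.1 hp
    rw [Finset.mem_filter] at hf ⊢
    refine ⟨Finset.mem_univ _, ?_⟩
    have := hf.2
    rw [hY, hY] at this
    exact this
  have hH : ∀ R : Finset (E × Fin M), ∑ i, Module.finrank ℚ (sp ℚ (xcfg a b q M i) univ) ≤
      ∑ i, Module.finrank ℚ (sp ℚ (xcfg a b q M i) R) + (univ \ R).card := by
    intro R
    rw [Fin.sum_univ_three, Fin.sum_univ_three, hx 0 (by decide), hx 1 (by decide), hx2,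
      finrank_sp_comp _ hinl, finrank_sp_comp _ hinl, finrank_sp_comp _ hinr,
      finrank_sp_comp _ hinr]
    have h1 := rank_cond (F := ℚ) a' b' (fun p => q p.1) (4 * M) hcut (sp ℚ (incv ℚ a' b') R)
    generalize Module.finrank ℚ (sp ℚ (incv ℚ a' b') univ) = ρu at h1 ⊢
    generalize Module.finrank ℚ (sp ℚ (incv ℚ a' b') R) = ρR at h1 ⊢
    have h2 : ∑ p ∈ univ.filter (fun p => ¬ incv ℚ a' b' p ∈ sp ℚ (incv ℚ a' b') R), q p.1 ≤
        ∑ p ∈ univ \ R, q p.1 := by
      apply Finset.sum_le_sum_of_subset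
      intro p hp
      rw [Finset.mem_filter] at hp
      rw [Finset.mem_sdiff]
      exact ⟨Finset.mem_univ _, fun h => hp.2 (mem_sp h)⟩
    let n : E → ℕ := fun e => (univ.filter (fun j : Fin M => (e, j) ∉ R)).card
    have hfib : ∀ g : E → ℕ, ∑ p ∈ univ \ R, g p.1 = ∑ e, g e * n e := by
      intro g
      have h3 : (univ \ R : Finset (E × Fin M)) = univ.filter (fun p => p ∉ R) := by
        ext p; simp
      rw [h3, Finset.sum_filter, Fintype.sum_prod_type]
      apply Finset.sum_congr rfl
      intro e _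
      rw [← Finset.sum_filter]
      show ∑ _j ∈ univ.filter (fun j : Fin M => (e, j) ∉ R), g e = g e * n e
      rw [Finset.sum_const, smul_eq_mul, mul_comm]
    have h3 := vd_rank_univ (M := M) (fun e => M - q e)
    have h4 := vd_rank (M := M) (fun e => M - q e) (fun e => Nat.sub_le _ _) R
    have hcompl : ∀ e, (R.filter (fun p => p.1 = e)).card = M - n e := by
      intro e
      have h5 : (R.filter (fun p => p.1 = e)).card =
          (univ.filter (fun j : Fin M => (e, j) ∈ R)).card := by
        symm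
        apply Finset.card_bij (fun j _ => (e, j))
        · intro j hj
          rw [Finset.mem_filter] at hj ⊢
          exact ⟨hj.2, rfl⟩
        · intro j _ k _ hjk; exact (Prod.mk.inj hjk).2
        · intro p hp
          rw [Finset.mem_filter] at hp
          refine ⟨p.2, ?_, ?_⟩
          · rw [Finset.mem_filter]
            refine ⟨Finset.mem_univ _, ?_⟩
            rw [← hp.2]; exact hp.1
          · rw [← hp.2]
      have h6 : (univ.filter (fun j : Fin M => (e, j) ∈ R)).card + n e = M := by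
        have := Finset.card_filter_add_card_filter_not (s := (univ : Finset (Fin M)))
          (fun j => (e, j) ∈ R)
        rw [Finset.card_univ, Fintype.card_fin] at this
        exact this
      omega
    have hn : ∀ e, n e ≤ M := by
      intro e
      have h5 : n e ≤ (univ : Finset (Fin M)).card := Finset.card_le_card (Finset.filter_subset _ _)
      rw [Finset.card_univ, Fintype.card_fin] at h5
      exact h5
    have hcard : (univ \ R).card = ∑ e, n e := by
      have := hfib (fun _ => 1)
      simp only [Finset.sum_const, smul_eq_mul, mul_one, one_mul] at this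
      exact this
    have hsum : M * ∑ e, (M - q e) + ∑ e, q e * n e ≤
        M * ∑ e, min (M - q e) (R.filter (fun p => p.1 = e)).card + M * ∑ e, n e := by
      rw [Finset.mul_sum, Finset.mul_sum, Finset.mul_sum, ← Finset.sum_add_distrib,
        ← Finset.sum_add_distrib]
      apply Finset.sum_le_sum
      intro e _
      rw [hcompl e]
      exact arith_key M (q e) (n e) (hM e) (hn e)
    rw [hfib q] at h2
    have h5 := Nat.mul_le_mul_left M h3
    have h6 := Nat.mul_le_mul_left M h4
    generalize Module.finrank ℚ (sp ℚ (vd M (fun e => M - q e)) univ) = ρ2u at h3 h5 ⊢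
    generalize Module.finrank ℚ (sp ℚ (vd M (fun e => M - q e)) R) = ρ2R at h4 h6 ⊢
    rw [hcard]
    have h7 : M * (ρu + ρu + ρ2u) ≤ M * (ρR + ρR + ρ2R + ∑ e, n e) := by
      have e1 : 4 * M * ρu = 2 * (M * ρu + M * ρu) := by ring
      have e2 : 4 * M * ρR = 2 * (M * ρR + M * ρR) := by ring
      rw [e1, e2] at h1
      have e3 : M * (ρu + ρu + ρ2u) = M * ρu + M * ρu + M * ρ2u := by ring
      have e4 : M * (ρR + ρR + ρ2R + ∑ e, n e) =
        M * ρR + M * ρR + M * ρ2R + M * ∑ e, n e := by ring
      rw [e3, e4]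
      omega
    exact Nat.le_of_mul_le_mul_left h7 hM0
  obtain ⟨I, hd, hI⟩ := packM (F := ℚ) (K := Fin 3) (x := xcfg a b q M) hH
  have hI0 : sp ℚ (incv ℚ a' b') (I 0) = sp ℚ (incv ℚ a' b') univ := by
    have := hI 0
    rw [hx 0 (by decide)] at this
    exact sp_comp_eq _ hinl _ _ _ this
  have hI1 : sp ℚ (incv ℚ a' b') (I 1) = sp ℚ (incv ℚ a' b') univ := by
    have := hI 1
    rw [hx 1 (by decide)] at this
    exact sp_comp_eq _ hinl _ _ _ this
  have hI2 : sp ℚ (vd M (fun e => M - q e)) (I 2) = sp ℚ (vd M (fun e => M - q e)) univ := by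
    have := hI 2
    rw [hx2] at this
    exact sp_comp_eq _ hinr _ _ _ this
  -- number of slots used by an edge
  have hused : ∀ e, (univ.filter (fun j => (e, j) ∈ I 0 ∨ (e, j) ∈ I 1)).card ≤ q e := by
    intro e
    have h1 := vd_span (M := M) (fun e => M - q e) (fun e => Nat.sub_le _ _) (I 2) hI2 e
    have h2 : Disjoint (univ.filter (fun j => (e, j) ∈ I 0 ∨ (e, j) ∈ I 1))
        (univ.filter (fun j => (e, j) ∈ I 2)) := by
      rw [Finset.disjoint_left]
      intro j h3 h4
      rw [Finset.mem_filter] at h3 h4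
      rcases h3.2 with h5 | h5
      · exact Finset.disjoint_left.1 (hd 0 2 (by decide)) h5 h4.2
      · exact Finset.disjoint_left.1 (hd 1 2 (by decide)) h5 h4.2
    have h3 := Finset.card_union_of_disjoint h2
    have h4 : (univ.filter (fun j => (e, j) ∈ I 0 ∨ (e, j) ∈ I 1) ∪
        univ.filter (fun j => (e, j) ∈ I 2)).card ≤ M := by
      have := Finset.card_le_univ (univ.filter (fun j => (e, j) ∈ I 0 ∨ (e, j) ∈ I 1) ∪
        univ.filter (fun j => (e, j) ∈ I 2))
      rwa [Fintype.card_fin] at this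
    have h5 := hM e
    omega
  have hJ : ∀ e, ∃ J : Finset (Fin M),
      univ.filter (fun j => (e, j) ∈ I 0 ∨ (e, j) ∈ I 1) ⊆ J ∧ J.card = q e := by
    intro e
    obtain ⟨J, h1, h2⟩ := Finset.exists_superset_card_eq (hused e)
      (by rw [Fintype.card_fin]; exact hM e)
    exact ⟨J, h1, h2⟩
  choose J hJ1 hJ2 using hJ
  refine ⟨fun j => univ.filter (fun e => j ∈ J e), ?_, ?_⟩
  · intro e
    rw [← hJ2 e]
    congr 1
    ext j
    simp
  · intro j X hX
    obtain ⟨e, he⟩ := hX
    let X' : Finset (W × Fin M) := univ.filter (fun p => p.1 ∈ X ∧ p.2 = j)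
    have hX' : ∀ p, p ∈ X' ↔ p.1 ∈ X ∧ p.2 = j := by intro p; simp [X']
    have hcr : ∃ p, ¬ (a' p ∈ X' ↔ b' p ∈ X') := by
      refine ⟨(e, j), ?_⟩
      rw [hX', hX']
      simpa [a', b'] using he
    obtain ⟨⟨e0, j0⟩, h01, h02⟩ := span_meets_cut a' b' (I 0) hI0 X' hcr
    obtain ⟨⟨e1, j1⟩, h11, h12⟩ := span_meets_cut a' b' (I 1) hI1 X' hcr
    have hj0 : j0 = j := by
      by_contra hcon
      apply h02
      rw [hX', hX']
      simp [a', b', hcon]
    have hj1 : j1 = j := by
      by_contra hcon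
      apply h12
      rw [hX', hX']
      simp [a', b', hcon]
    subst hj0
    subst hj1
    rw [hX', hX'] at h02 h12
    have hne : e0 ≠ e1 := by
      rintro rfl
      exact Finset.disjoint_left.1 (hd 0 1 (by decide)) h01 h11
    have hsub : ({e0, e1} : Finset E) ⊆
        (univ.filter (fun e => j1 ∈ J e)).filter (fun e => ¬ (a e ∈ X ↔ b e ∈ X)) := by
      intro f hf
      rw [Finset.mem_insert, Finset.mem_singleton] at hf
      rw [Finset.mem_filter, Finset.mem_filter]
      rcases hf with rfl | rfl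
      · refine ⟨⟨Finset.mem_univ _, hJ1 _ ?_⟩, ?_⟩
        · rw [Finset.mem_filter]; exact ⟨Finset.mem_univ _, Or.inl h01⟩
        · simpa [a', b'] using h02
      · refine ⟨⟨Finset.mem_univ _, hJ1 _ ?_⟩, ?_⟩
        · rw [Finset.mem_filter]; exact ⟨Finset.mem_univ _, Or.inr h11⟩
        · simpa [a', b'] using h12
    have := Finset.card_le_card hsub
    rw [Finset.card_pair hne] at this
    exact this

end Pool.Agent.H825R2.EW
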