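import Pool.Agent.H825R2.EW.PackM

set_option autoImplicit false
set_option linter.unusedSectionVars false

/-!
A weighted rank inequality for the cut structure of a graph (given by two maps `a b : E → W`).
-/

namespace Pool.Agent.H825R2.EW

open Finset
open Pool.Agent.Helper879.ECD (sp Ind sp_mono mem_sp mem_sp_exch sp_exch)

variable {F W E : Type} [Field F] [Fintype W] [DecidableEq W] [Fintype E] [DecidableEq E]

/-- oriented incidence vector of an edge -/
def incv (F : Type) {W E : Type} [Field F] [DecidableEq W] (a b : E → W) (e : E) : W → F :=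
  Pi.single (a e) 1 - Pi.single (b e) 1

/-- total weight of the edges of `D` crossing `X` -/
def cw (a b : E → W) (D : Finset E) (w : E → ℕ) (X : Finset W) : ℕ :=
  ∑ e ∈ D.filter (fun e => ¬ (a e ∈ X ↔ b e ∈ X)), w e

open Classical in
lemma rank_cond (a b : E → W) (w : E → ℕ) (c : ℕ)
    (h4 : ∀ X : Finset W, (∃ e, ¬ (a e ∈ X ↔ b e ∈ X)) → c ≤ cw a b univ w X)
    (S : Submodule F (W → F)) :
    c * Module.finrank F (sp F (incv F a b) univ) ≤
      c * Module.finrank F S + 2 * ∑ e ∈ univ.filter (fun e => ¬ incv F a b e ∈ S), w e := by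
  let r : W → W → Prop := fun w v => (Pi.single w 1 - Pi.single v 1 : W → F) ∈ S
  have hr_refl : ∀ w, r w w := by
    intro w
    show (Pi.single w 1 - Pi.single w 1 : W → F) ∈ S
    rw [sub_self]; exact S.zero_mem
  have hr_symm : ∀ w v, r w v → r v w := by
    intro w v h
    show (Pi.single v 1 - Pi.single w 1 : W → F) ∈ S
    have := S.neg_mem h
    rwa [neg_sub] at this
  have hr_trans : ∀ u v w, r u v → r v w → r u w := by
    intro u v w h1 h2
    have h3 := S.add_mem h1 h2
    rwa [sub_add_sub_cancel] at h3
  let cls : W → Finset W := fun w => univ.filter (fun v => r w v)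
  have hcls : ∀ w v, v ∈ cls w ↔ r w v := by intro w v; simp [cls]
  have hcls_eq : ∀ w v, r w v → cls w = cls v := by
    intro w v h
    ext u
    rw [hcls, hcls]
    exact ⟨fun h' => hr_trans _ _ _ (hr_symm _ _ h) h', fun h' => hr_trans _ _ _ h h'⟩
  let P : Finset (Finset W) := univ.image cls
  have hPmem : ∀ w, cls w ∈ P := fun w => Finset.mem_image_of_mem _ (Finset.mem_univ _)
  have hPuniq : ∀ X ∈ P, ∀ w ∈ X, X = cls w := by
    intro X hX w hw
    obtain ⟨v, _, rfl⟩ := Finset.mem_image.1 hX
    exact hcls_eq _ _ ((hcls _ _).1 hw)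
  let P' : Finset (Finset W) := P.filter (fun X => ∃ e, ¬ (a e ∈ X ↔ b e ∈ X))
  have hE : ∀ e, incv F a b e ∈ S ↔ r (a e) (b e) := fun e => Iff.rfl
  -- counting
  have hcount : ∑ X ∈ P, cw a b univ w X =
      2 * ∑ e ∈ univ.filter (fun e => ¬ incv F a b e ∈ S), w e := by
    simp only [cw, Finset.sum_filter, Finset.mul_sum]
    rw [Finset.sum_comm]
    apply Finset.sum_congr rfl
    intro e _
    by_cases h : incv F a b e ∈ S
    · have h1 : ∀ X ∈ P, (if ¬ (a e ∈ X ↔ b e ∈ X) then w e else 0) = 0 := by
        intro X hX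
        rw [if_neg]
        rw [not_not]
        constructor
        · intro h2
          rw [hPuniq X hX _ h2, hcls]
          exact (hE e).1 h
        · intro h2
          rw [hPuniq X hX _ h2, hcls]
          exact hr_symm _ _ ((hE e).1 h)
      rw [Finset.sum_congr rfl h1]
      simp [h]
    · have hne : cls (a e) ≠ cls (b e) := by
        intro h2
        apply h
        rw [hE]
        have : b e ∈ cls (b e) := (hcls _ _).2 (hr_refl _)
        rw [← h2, hcls] at this
        exact this
      have h1 : ∀ X ∈ P, (if ¬ (a e ∈ X ↔ b e ∈ X) then w e else 0) =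
          (if X = cls (a e) then w e else 0) + (if X = cls (b e) then w e else 0) := by
        intro X hX
        have ha : a e ∈ X ↔ X = cls (a e) :=
          ⟨fun h2 => hPuniq X hX _ h2, fun h2 => by rw [h2, hcls]; exact hr_refl _⟩
        have hb : b e ∈ X ↔ X = cls (b e) :=
          ⟨fun h2 => hPuniq X hX _ h2, fun h2 => by rw [h2, hcls]; exact hr_refl _⟩
        by_cases h2 : X = cls (a e)
        · have h3 : ¬ X = cls (b e) := fun h3 => hne (h2.symm.trans h3)
          rw [if_pos, if_pos h2, if_neg h3, add_zero]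
          intro h4
          exact h3 (hb.1 (h4.1 (ha.2 h2)))
        · by_cases h3 : X = cls (b e)
          · rw [if_pos, if_neg h2, if_pos h3, zero_add]
            intro h4
            exact h2 (ha.1 (h4.2 (hb.2 h3)))
          · rw [if_neg, if_neg h2, if_neg h3]
            rw [not_not]
            exact ⟨fun h4 => absurd (ha.1 h4) h2, fun h4 => absurd (hb.1 h4) h3⟩
      rw [Finset.sum_congr rfl h1, Finset.sum_add_distrib, Finset.sum_ite_eq', Finset.sum_ite_eq',
        if_pos (hPmem _), if_pos (hPmem _), if_pos h]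
      ring
  have hP' : c * P'.card ≤ 2 * ∑ e ∈ univ.filter (fun e => ¬ incv F a b e ∈ S), w e := by
    have h1 : c * P'.card ≤ ∑ X ∈ P', cw a b univ w X := by
      have := Finset.card_nsmul_le_sum P' (fun X => cw a b univ w X) c (by
        intro X hX
        exact h4 X (Finset.mem_filter.1 hX).2)
      rw [smul_eq_mul] at this
      rw [mul_comm]; exact this
    have h2 : ∑ X ∈ P', cw a b univ w X ≤ ∑ X ∈ P, cw a b univ w X :=
      Finset.sum_le_sum_of_subset (Finset.filter_subset _ _)
    omega
  -- representatives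
  have hrep : ∀ X ∈ P, ∃ w, w ∈ X := by
    intro X hX
    obtain ⟨v, _, rfl⟩ := Finset.mem_image.1 hX
    exact ⟨v, (hcls _ _).2 (hr_refl _)⟩
  by_cases hWe : IsEmpty W
  · have : (sp F (incv F a b) univ) ≤ S := by
      unfold sp
      rw [Submodule.span_le]
      rintro _ ⟨e, _, rfl⟩
      exact (hWe.false (a e)).elim
    have := Nat.mul_le_mul_left c (Submodule.finrank_mono this)
    omega
  rw [not_isEmpty_iff] at hWe
  choose! rep hrep using hrep
  let T : Finset (W → F) := P'.image (fun X => Pi.single (rep X) 1)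
  have hle : sp F (incv F a b) univ ≤ S ⊔ Submodule.span F (T : Set (W → F)) := by
    unfold sp
    rw [Submodule.span_le]
    rintro _ ⟨e, _, rfl⟩
    by_cases h : incv F a b e ∈ S
    · exact Submodule.mem_sup_left h
    · have hne : cls (a e) ≠ cls (b e) := by
        intro h2
        apply h
        rw [hE]
        have : b e ∈ cls (b e) := (hcls _ _).2 (hr_refl _)
        rw [← h2, hcls] at this
        exact this
      have key : ∀ w, (w = a e ∨ w = b e) → cls w ∈ P' := by
        intro w hw
        rw [Finset.mem_filter]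
        refine ⟨hPmem _, e, ?_⟩
        intro h2
        apply h
        rw [hE]
        rcases hw with rfl | rfl
        · exact (hcls _ _).1 (h2.1 ((hcls _ _).2 (hr_refl _)))
        · exact hr_symm _ _ ((hcls _ _).1 (h2.2 ((hcls _ _).2 (hr_refl _))))
      have hmem : ∀ w, (w = a e ∨ w = b e) →
          (Pi.single w 1 : W → F) ∈ S ⊔ Submodule.span F (T : Set (W → F)) := by
        intro w hw
        have h1 : (Pi.single w 1 - Pi.single (rep (cls w)) 1 : W → F) ∈ S :=
          (hcls _ _).1 (hrep _ (hPmem w))
        have h2 : (Pi.single (rep (cls w)) 1 : W → F) ∈ Submodule.span F (T : Set (W → F)) := by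
          apply Submodule.subset_span
          rw [Finset.mem_coe]
          exact Finset.mem_image.2 ⟨cls w, key w hw, rfl⟩
        have h3 : (Pi.single w 1 : W → F) =
            (Pi.single w 1 - Pi.single (rep (cls w)) 1) + Pi.single (rep (cls w)) 1 := by
          rw [sub_add_cancel]
        rw [h3]
        exact Submodule.add_mem _ (Submodule.mem_sup_left h1) (Submodule.mem_sup_right h2)
      exact Submodule.sub_mem _ (hmem _ (Or.inl rfl)) (hmem _ (Or.inr rfl))
  have h1 := Submodule.finrank_mono hle
  have h2 := Submodule.finrank_add_le_finrank_add_finrank S (Submodule.span F (T : Set (W → F)))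
  have h3 : Module.finrank F (Submodule.span F (T : Set (W → F))) ≤ T.card :=
    finrank_span_finset_le_card T
  have h5 : T.card ≤ P'.card := Finset.card_image_le
  have h6 : Module.finrank F (sp F (incv F a b) univ) ≤ Module.finrank F S + P'.card := by omega
  have h7 := Nat.mul_le_mul_left c h6
  rw [mul_add] at h7
  omega

/-- a spanning set of edges meets every nonempty cut -/
lemma span_meets_cut (a b : E → W) (I : Finset E)
    (hI : sp F (incv F a b) I = sp F (incv F a b) univ) (X : Finset W)
    (hX : ∃ e, ¬ (a e ∈ X ↔ b e ∈ X)) : ∃ e ∈ I, ¬ (a e ∈ X ↔ b e ∈ X) := by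
  classical
  by_contra hcon
  push Not at hcon
  obtain ⟨e, he⟩ := hX
  let f : (W → F) →ₗ[F] F := ∑ w ∈ X, LinearMap.proj w
  have hf : ∀ w, f (Pi.single w 1) = if w ∈ X then 1 else 0 := by
    intro w
    simp only [f, LinearMap.sum_apply, LinearMap.proj_apply]
    by_cases hw : w ∈ X
    · rw [if_pos hw, Finset.sum_eq_single w]
      · simp
      · intro v _ hv; simp [hv]
      · intro h; exact absurd hw h
    · rw [if_neg hw]
      apply Finset.sum_eq_zero
      intro v hv
      have : v ≠ w := fun h => hw (h ▸ hv)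
      simp [this]
  have hker : sp F (incv F a b) I ≤ LinearMap.ker f := by
    unfold sp
    rw [Submodule.span_le]
    rintro _ ⟨g, hg, rfl⟩
    have hg' := hcon g (Finset.mem_coe.1 hg)
    rw [SetLike.mem_coe, LinearMap.mem_ker]
    unfold incv
    rw [map_sub, hf, hf]
    by_cases h1 : a g ∈ X
    · rw [if_pos h1, if_pos (hg'.1 h1), sub_self]
    · rw [if_neg h1, if_neg (fun h => h1 (hg'.2 h)), sub_self]
  have h1 : incv F a b e ∈ LinearMap.ker f := by
    apply hker
    rw [hI]
    exact mem_sp (Finset.mem_univ e)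
  rw [LinearMap.mem_ker] at h1
  unfold incv at h1
  rw [map_sub, hf, hf] at h1
  apply he
  by_cases h2 : a e ∈ X
  · by_cases h3 : b e ∈ X
    · exact ⟨fun _ => h3, fun _ => h2⟩
    · rw [if_pos h2, if_neg h3, sub_zero] at h1
      exact absurd h1 one_ne_zero
  · by_cases h3 : b e ∈ X
    · rw [if_neg h2, if_pos h3, zero_sub, neg_eq_zero] at h1
      exact absurd h1 one_ne_zero
    · exact ⟨fun h => absurd h h2, fun h => absurd h h3⟩

end Pool.Agent.H825R2.EW
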