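import Pool.Agent.H825R2.EW.Rank

set_option autoImplicit false
set_option linter.unusedSectionVars false

/-!
A rational vector configuration representing a direct sum of uniform matroids.
-/

namespace Pool.Agent.H825R2.EW

open Finset
open Pool.Agent.Helper879.ECD (sp Ind sp_mono mem_sp mem_sp_exch sp_exch)

variable {E : Type} [Fintype E] [DecidableEq E] {M : ℕ}

/-- moment vectors -/
def vb (M r : ℕ) (j : Fin M) : Fin M → ℚ := fun i => if i.val < r then ((j.val : ℕ) : ℚ) ^ i.val else 0

lemma vb_zero {r : ℕ} (hr : r ≤ M) (J : Finset (Fin M)) (hJ : J.card ≤ r) (c : Fin M → ℚ)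
    (h : ∀ i : Fin M, ∑ j ∈ J, c j * vb M r j i = 0) : ∀ j ∈ J, c j = 0 := by
  classical
  set n := J.card with hn
  let g : Fin n ↪o Fin M := J.orderEmbOfFin hn.symm
  have hg : Function.Injective (fun k : Fin n => (((g k).val : ℕ) : ℚ)) := by
    intro k l hkl
    have h0 : (((g k).val : ℕ) : ℚ) = (((g l).val : ℕ) : ℚ) := hkl
    have h1 : (g k).val = (g l).val := by exact_mod_cast h0
    exact g.injective (Fin.ext h1)
  have h1 := Matrix.eq_zero_of_forall_pow_sum_mul_pow_eq_zero
    (f := fun k : Fin n => (((g k).val : ℕ) : ℚ)) (v := fun k => c (g k)) hg (by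
      intro i
      have hi : i.val < M := lt_of_lt_of_le i.isLt (le_trans hJ hr)
      have h2 := h ⟨i.val, hi⟩
      have h3 : ∑ j ∈ J, c j * vb M r j ⟨i.val, hi⟩ =
          ∑ k : Fin n, c (g k) * (((g k).val : ℕ) : ℚ) ^ (i : ℕ) := by
        have h4 : J = univ.image g := by
          ext j
          constructor
          · intro hj
            have h5 := Finset.range_orderEmbOfFin J hn.symm
            have h6 : j ∈ Set.range (J.orderEmbOfFin hn.symm) := by rw [h5]; exact hj
            obtain ⟨k, hk⟩ := h6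
            exact Finset.mem_image.2 ⟨k, Finset.mem_univ _, hk⟩
          · intro hj
            obtain ⟨k, _, rfl⟩ := Finset.mem_image.1 hj
            exact Finset.orderEmbOfFin_mem J hn.symm k
        conv_lhs => rw [h4]
        rw [Finset.sum_image (fun k _ l _ hkl => g.injective hkl)]
        apply Finset.sum_congr rfl
        intro k _
        unfold vb
        rw [if_pos (lt_of_lt_of_le i.isLt hJ)]
      rw [← h3]; exact h2)
  intro j hj
  have h5 := Finset.range_orderEmbOfFin J hn.symm
  have h6 : j ∈ Set.range (J.orderEmbOfFin hn.symm) := by rw [h5]; exact hj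
  obtain ⟨k, hk⟩ := h6
  have h7 := congrFun h1 k
  have h8 : c (g k) = 0 := h7
  have h9 : g k = j := hk
  rw [← h9]; exact h8

/-- block moment vectors -/
def vd (M : ℕ) {E : Type} [DecidableEq E] (r : E → ℕ) (p : E × Fin M) : E × Fin M → ℚ :=
  fun t => if t.1 = p.1 then vb M (r p.1) p.2 t.2 else 0

lemma vd_ind (r : E → ℕ) (hr : ∀ e, r e ≤ M) (R : Finset (E × Fin M))
    (hR : ∀ e, (R.filter (fun p => p.1 = e)).card ≤ r e) : Ind ℚ (vd M r) R := by
  classical
  unfold Ind
  rw [linearIndepOn_finset_iff]
  intro c hc p hp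
  obtain ⟨e, j⟩ := p
  let J : Finset (Fin M) := univ.filter (fun j => (e, j) ∈ R)
  have hJ : J.card ≤ r e := by
    refine le_trans ?_ (hR e)
    apply Finset.card_le_card_of_injOn (fun j => (e, j))
    · intro j hj
      rw [Finset.mem_coe, Finset.mem_filter] at hj
      rw [Finset.mem_coe, Finset.mem_filter]
      exact ⟨hj.2, rfl⟩
    · intro j _ k _ hjk
      exact (Prod.mk.inj hjk).2
  apply vb_zero (hr e) J hJ (fun j => c (e, j)) ?_ j (Finset.mem_filter.2 ⟨Finset.mem_univ _, hp⟩)
  intro i
  have h1 := congrFun hc (e, i)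
  rw [Finset.sum_apply] at h1
  have h2 : ∑ p ∈ R, (c p • vd M r p) (e, i) = ∑ p ∈ R.filter (fun p => p.1 = e),
      c p * vb M (r e) p.2 i := by
    rw [Finset.sum_filter]
    apply Finset.sum_congr rfl
    intro p _
    rw [Pi.smul_apply, smul_eq_mul]
    unfold vd
    by_cases hpe : p.1 = e
    · rw [if_pos hpe.symm, if_pos hpe, hpe]
    · rw [if_neg (Ne.symm hpe), if_neg hpe, mul_zero]
  rw [h2] at h1
  have h3 : R.filter (fun p => p.1 = e) = J.image (fun j => (e, j)) := by
    ext p
    rw [Finset.mem_filter, Finset.mem_image]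
    constructor
    · rintro ⟨h3, h4⟩
      refine ⟨p.2, ?_, ?_⟩
      · rw [Finset.mem_filter]
        refine ⟨Finset.mem_univ _, ?_⟩
        rw [← h4]; exact h3
      · rw [← h4]
    · rintro ⟨j, hj, rfl⟩
      exact ⟨(Finset.mem_filter.1 hj).2, rfl⟩
  rw [h3, Finset.sum_image (fun k _ l _ hkl => (Prod.mk.inj hkl).2)] at h1
  exact h1

/-- lower bound for the rank of a set -/
lemma vd_rank (r : E → ℕ) (hr : ∀ e, r e ≤ M) (R : Finset (E × Fin M)) :
    ∑ e, min (r e) (R.filter (fun p => p.1 = e)).card ≤ Module.finrank ℚ (sp ℚ (vd M r) R) := by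
  classical
  have h1 : ∀ e, ∃ S ⊆ R.filter (fun p => p.1 = e), S.card =
      min (r e) (R.filter (fun p => p.1 = e)).card := fun e =>
    Finset.exists_subset_card_eq (min_le_right _ _)
  choose S hS1 hS2 using h1
  let R' := univ.biUnion S
  have hfil : ∀ e, R'.filter (fun p => p.1 = e) = S e := by
    intro e
    ext p
    rw [Finset.mem_filter, Finset.mem_biUnion]
    constructor
    · rintro ⟨⟨f, _, hf⟩, h2⟩
      have h3 := (Finset.mem_filter.1 (hS1 f hf)).2
      have h4 : f = e := h3.symm.trans h2
      rw [← h4]; exact hf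
    · intro h2
      exact ⟨⟨e, Finset.mem_univ _, h2⟩, (Finset.mem_filter.1 (hS1 e h2)).2⟩
  have hind := vd_ind r hr R' (by
    intro e
    rw [hfil, hS2]; exact min_le_left _ _)
  have hsub : R' ⊆ R := by
    intro p hp
    obtain ⟨e, _, he⟩ := Finset.mem_biUnion.1 hp
    exact (Finset.mem_filter.1 (hS1 e he)).1
  have hcard : R'.card = ∑ e, min (r e) (R.filter (fun p => p.1 = e)).card := by
    rw [Finset.card_biUnion]
    · exact Finset.sum_congr rfl (fun e _ => hS2 e)
    · intro e _ f _ hef
      show Disjoint (S e) (S f)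
      rw [Finset.disjoint_left]
      intro p h1 h2
      exact hef ((Finset.mem_filter.1 (hS1 e h1)).2.symm.trans (Finset.mem_filter.1 (hS1 f h2)).2)
  rw [← hcard, ← hind.card]
  exact Submodule.finrank_mono (sp_mono hsub)

/-- upper bound for the total rank -/
lemma vd_rank_univ (r : E → ℕ) :
    Module.finrank ℚ (sp ℚ (vd M r) univ) ≤ ∑ e, r e := by
  classical
  let T : Finset (E × Fin M → ℚ) :=
    (univ.filter (fun p : E × Fin M => p.2.val < r p.1)).image (fun p => Pi.single p 1)
  have h1 : sp ℚ (vd M r) univ ≤ Submodule.span ℚ (T : Set (E × Fin M → ℚ)) := by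
    unfold sp
    rw [Submodule.span_le]
    rintro _ ⟨p, _, rfl⟩
    have h2 : vd M r p = ∑ t ∈ univ.filter (fun t : E × Fin M => t.2.val < r t.1),
        vd M r p t • (Pi.single t 1 : E × Fin M → ℚ) := by
      ext s
      rw [Finset.sum_apply]
      simp only [Pi.smul_apply, smul_eq_mul, Pi.single_apply, mul_ite, mul_one, mul_zero]
      rw [Finset.sum_ite_eq]
      split_ifs with h3
      · rfl
      · rw [Finset.mem_filter] at h3
        push Not at h3
        have h4 := h3 (Finset.mem_univ _)
        unfold vd vb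
        by_cases h5 : s.1 = p.1
        · rw [if_pos h5, if_neg (by rw [← h5]; omega)]
        · rw [if_neg h5]
    rw [h2]
    apply Submodule.sum_mem
    intro t ht
    apply Submodule.smul_mem
    apply Submodule.subset_span
    exact Finset.mem_coe.2 (Finset.mem_image_of_mem _ ht)
  have h2 := Submodule.finrank_mono h1
  have h3 : Module.finrank ℚ (Submodule.span ℚ (T : Set (E × Fin M → ℚ))) ≤ T.card :=
    finrank_span_finset_le_card T
  have h4 : T.card ≤ (univ.filter (fun p : E × Fin M => p.2.val < r p.1)).card :=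
    Finset.card_image_le
  have h5 : (univ.filter (fun p : E × Fin M => p.2.val < r p.1)).card ≤ ∑ e, r e := by
    have h6 : univ.filter (fun p : E × Fin M => p.2.val < r p.1) =
        univ.biUnion (fun e => (univ.filter (fun j : Fin M => j.val < r e)).image
          (fun j => (e, j))) := by
      ext p
      simp only [Finset.mem_filter, Finset.mem_univ, true_and, Finset.mem_biUnion,
        Finset.mem_image]
      constructor
      · intro h; exact ⟨p.1, p.2, h, rfl⟩
      · rintro ⟨e, j, h, rfl⟩; exact h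
    rw [h6]
    refine le_trans Finset.card_biUnion_le ?_
    apply Finset.sum_le_sum
    intro e _
    refine le_trans Finset.card_image_le ?_
    rw [Fin.card_filter_val_lt]
    exact min_le_right _ _
  omega

/-- a spanning set has at least `r e` elements in the fibre of `e` -/
lemma vd_span (r : E → ℕ) (hr : ∀ e, r e ≤ M) (I : Finset (E × Fin M))
    (hI : sp ℚ (vd M r) I = sp ℚ (vd M r) univ) (e : E) :
    r e ≤ (univ.filter (fun j => (e, j) ∈ I)).card := by
  classical
  let π : (E × Fin M → ℚ) →ₗ[ℚ] (Fin M → ℚ) :=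
    { toFun := fun v j => v (e, j), map_add' := fun _ _ => rfl, map_smul' := fun _ _ => rfl }
  let J : Finset (Fin M) := univ.filter (fun j => (e, j) ∈ I)
  have hπ : ∀ p : E × Fin M, π (vd M r p) = if p.1 = e then vb M (r e) p.2 else 0 := by
    intro p
    ext i
    show vd M r p (e, i) = _
    unfold vd
    by_cases h : p.1 = e
    · rw [if_pos h.symm, if_pos h, h]
    · rw [if_neg (Ne.symm h), if_neg h]; rfl
  -- image of the span of `I`
  have h1 : (sp ℚ (vd M r) I).map π ≤ Submodule.span ℚ ((J.image (vb M (r e)) : Finset _) :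
      Set (Fin M → ℚ)) := by
    unfold sp
    rw [Submodule.map_span, Submodule.span_le]
    rintro _ ⟨_, ⟨p, hp, rfl⟩, rfl⟩
    rw [hπ]
    by_cases h : p.1 = e
    · rw [if_pos h]
      apply Submodule.subset_span
      rw [Finset.mem_coe]
      apply Finset.mem_image_of_mem
      rw [Finset.mem_filter]
      refine ⟨Finset.mem_univ _, ?_⟩
      rw [← h]; exact hp
    · rw [if_neg h]; exact Submodule.zero_mem _
  have h2 : Module.finrank ℚ ((sp ℚ (vd M r) I).map π) ≤ J.card := by
    refine le_trans (Submodule.finrank_mono h1) (le_trans (finrank_span_finset_le_card _) ?_)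
    exact Finset.card_image_le
  -- image of the whole span
  rw [hI] at h2
  obtain ⟨J0, -, hJ0⟩ := Finset.exists_subset_card_eq
    (s := (univ : Finset (Fin M))) (n := r e) (by rw [Finset.card_univ, Fintype.card_fin]; exact hr e)
  have h3 : Ind ℚ (vb M (r e)) J0 := by
    unfold Ind
    rw [linearIndepOn_finset_iff]
    intro c hc
    apply vb_zero (hr e) J0 (le_of_eq hJ0) c
    intro i
    have := congrFun hc i
    rw [Finset.sum_apply] at this
    exact this
  have h4 : sp ℚ (vb M (r e)) J0 ≤ (sp ℚ (vd M r) univ).map π := by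
    unfold sp
    rw [Submodule.span_le]
    rintro _ ⟨j, _, rfl⟩
    refine ⟨vd M r (e, j), Submodule.subset_span ⟨(e, j), Finset.mem_coe.2 (Finset.mem_univ _), rfl⟩, ?_⟩
    rw [hπ, if_pos rfl]
  have h5 := Submodule.finrank_mono h4
  rw [h3.card, hJ0] at h5
  exact le_trans h5 h2

end Pool.Agent.H825R2.EW
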